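import Mathlib

/-!
# Distance-hereditary graphs: consequences of the metric definition
-/

namespace X249.DH

open SimpleGraph

variable {V : Type*} {G : SimpleGraph V}

/-- `G` is distance-hereditary: distances in every connected induced subgraph agree with
the distances in `G`. -/
def DistHereditary {V : Type*} (G : SimpleGraph V) : Prop :=
  ∀ s : Set V, (G.induce s).Connected →
    ∀ u v : s, (G.induce s).edist u v = G.edist (u : V) (v : V)

/-- Induced subgraphs of distance-hereditary graphs are distance-hereditary. -/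
theorem DistHereditary.comap {W : Type*} {H : SimpleGraph W} (hG : DistHereditary G)
    (f : H ↪g G) : DistHereditary H := by
  intro s hs u v
  let e : H.induce s ≃g G.induce (f '' s) :=
    { toEquiv := Equiv.Set.image f s f.injective
      map_rel_iff' := fun {a b} => f.map_adj_iff }
  have he : ∀ a : s, ((e a : f '' s) : V) = f a := fun a => rfl
  have hc : (G.induce (f '' s)).Connected := e.connected_iff.1 hs
  have h := hG (f '' s) hc (e u) (e v)
  rw [he, he] at h
  apply le_antisymm
  · have h1 : (H.induce s).edist u v ≤ (G.induce (f '' s)).edist (e u) (e v) := by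
      obtain ⟨p, hp⟩ := hc.exists_walk_length_eq_edist (e u) (e v)
      rw [← hp]
      have h3 := (H.induce s).edist_le
        ((p.map e.symm.toHom).copy (e.symm_apply_apply u) (e.symm_apply_apply v))
      rw [Walk.length_copy, Walk.length_map] at h3
      exact h3
    refine h1.trans ?_
    rw [h]
    by_cases hr : H.Reachable (u : W) (v : W)
    · obtain ⟨p, hp⟩ := hr.exists_walk_length_eq_edist
      rw [← hp]
      have h3 := G.edist_le (p.map f.toHom)
      rw [Walk.length_map] at h3
      exact h3
    · rw [edist_eq_top_of_not_reachable hr]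
      exact le_top
  · obtain ⟨p, hp⟩ := hs.exists_walk_length_eq_edist u v
    rw [← hp]
    have h3 := H.edist_le (p.map (Embedding.induce s).toHom)
    rw [Walk.length_map] at h3
    exact h3

theorem walk_pot {W : Type*} {H : SimpleGraph W} (φ : W → ℕ)
    (h2 : ∀ p q, H.Adj p q → φ p ≤ φ q + 1) {a b : W} (p : H.Walk a b) :
    φ a ≤ φ b + p.length := by
  induction p with
  | nil => simp
  | cons h p ih =>
    have := h2 _ _ h
    simp only [Walk.length_cons]
    omega

/-- connectedness from a potential -/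
theorem conn_pot (s : Set V) (r : V) (hr : r ∈ s) (φ : V → ℕ)
    (h1 : ∀ w ∈ s, w ≠ r → ∃ w' ∈ s, G.Adj w w' ∧ φ w' < φ w) :
    (G.induce s).Connected := by
  have key : ∀ n, ∀ w (hw : w ∈ s), φ w ≤ n → (G.induce s).Reachable ⟨w, hw⟩ ⟨r, hr⟩ := by
    intro n
    induction n with
    | zero =>
      intro w hw h
      by_cases hwr : w = r
      · subst hwr; exact Reachable.refl _
      · obtain ⟨w', _, _, h3⟩ := h1 w hw hwr
        omega
    | succ n ih =>
      intro w hw h
      by_cases hwr : w = r
      · subst hwr; exact Reachable.refl _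
      · obtain ⟨w', hw', hadj, h3⟩ := h1 w hw hwr
        have h4 : (G.induce s).Adj ⟨w, hw⟩ ⟨w', hw'⟩ := hadj
        exact h4.reachable.trans (ih w' hw' (by omega))
  have : Nonempty s := ⟨⟨r, hr⟩⟩
  refine Connected.mk (fun a b => ?_)
  exact (key _ a.1 a.2 le_rfl).trans (key _ b.1 b.2 le_rfl).symm

/-- **The potential lemma.** -/
theorem pot (hG : DistHereditary G) (s : Set V) (r : V) (hr : r ∈ s) (φ : V → ℕ)
    (h1 : ∀ w ∈ s, w ≠ r → ∃ w' ∈ s, G.Adj w w' ∧ φ w' < φ w)
    (h2 : ∀ p ∈ s, ∀ q ∈ s, G.Adj p q → φ p ≤ φ q + 1)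
    (u : V) (hu : u ∈ s) (p : G.Walk u r) : φ u ≤ φ r + p.length := by
  have hc := conn_pot (G := G) s r hr φ h1
  have h := hG s hc ⟨u, hu⟩ ⟨r, hr⟩
  obtain ⟨q, hq⟩ := hc.exists_walk_length_eq_edist ⟨u, hu⟩ ⟨r, hr⟩
  have h3 : (q.length : ℕ∞) ≤ p.length := by
    rw [hq, h]; exact G.edist_le p
  have h4 : q.length ≤ p.length := by exact_mod_cast h3
  have h5 := walk_pot (H := G.induce s) (fun w => φ w.1)
    (fun a b hab => h2 a.1 a.2 b.1 b.2 hab) q
  simp only at h5
  omega

/-- no common neighbour of the ends of an induced path on four vertices -/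
theorem noP4 (hG : DistHereditary G) {p q r t c : V} (hpq : G.Adj p q) (hqr : G.Adj q r)
    (hrt : G.Adj r t) (hpr : ¬ G.Adj p r) (hqt : ¬ G.Adj q t) (hpt : ¬ G.Adj p t)
    (hcp : G.Adj c p) (hct : G.Adj c t) : False := by
  classical
  have npt : p ≠ t := by rintro rfl; exact hqt hpq.symm
  have npr : p ≠ r := by rintro rfl; exact hpt hrt
  have nqt : q ≠ t := by rintro rfl; exact hpt hpq
  have npq := hpq.ne
  have nqr := hqr.ne
  have nrt := hrt.ne
  let φ : V → ℕ := fun w => if w = t then 0 else if w = r then 1 else if w = q then 2 else 3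
  have ft : φ t = 0 := by simp [φ]
  have fr : φ r = 1 := by simp [φ, nrt]
  have fq : φ q = 2 := by simp [φ, nqt, nqr]
  have fp : φ p = 3 := by simp [φ, npt, npr, npq]
  have h := pot hG {p, q, r, t} t (by simp) φ ?_ ?_ p (by simp)
    (Walk.cons hcp.symm (Walk.cons hct Walk.nil))
  · rw [ft, fp] at h
    simp at h
  · intro w hw hwt
    simp only [Set.mem_insert_iff, Set.mem_singleton_iff] at hw
    rcases hw with rfl | rfl | rfl | rfl
    · exact ⟨q, by simp, hpq, by omega⟩
    · exact ⟨r, by simp, hqr, by omega⟩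
    · exact ⟨t, by simp, hrt, by omega⟩
    · exact absurd rfl hwt
  · intro a ha b hb hab
    simp only [Set.mem_insert_iff, Set.mem_singleton_iff] at ha hb
    rcases ha with rfl | rfl | rfl | rfl <;> rcases hb with rfl | rfl | rfl | rfl <;>
      first
        | omega
        | exact absurd hab (G.loopless.irrefl _)
        | exact absurd hab hpr
        | exact absurd hab hqt
        | exact absurd hab hpt

/-- no common neighbour of the ends of an induced path on five vertices -/
theorem noP5 (hG : DistHereditary G) {p q r t w c : V} (hpq : G.Adj p q) (hqr : G.Adj q r)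
    (hrt : G.Adj r t) (htw : G.Adj t w) (hpr : ¬ G.Adj p r) (hqt : ¬ G.Adj q t)
    (hpt : ¬ G.Adj p t) (hpw : ¬ G.Adj p w) (hqw : ¬ G.Adj q w) (hrw : ¬ G.Adj r w)
    (hcp : G.Adj c p) (hcw : G.Adj c w) : False := by
  classical
  have npt : p ≠ t := by rintro rfl; exact hqt hpq.symm
  have npr : p ≠ r := by rintro rfl; exact hpt hrt
  have nqt : q ≠ t := by rintro rfl; exact hpt hpq
  have npw : p ≠ w := by rintro rfl; exact hqw hpq.symm
  have nqw : q ≠ w := by rintro rfl; exact hpw hpq
  have nrw : r ≠ w := by rintro rfl; exact hqw hqr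
  have npq := hpq.ne
  have nqr := hqr.ne
  have nrt := hrt.ne
  have ntw := htw.ne
  let φ : V → ℕ := fun x => if x = w then 0 else if x = t then 1 else if x = r then 2
    else if x = q then 3 else 4
  have fw : φ w = 0 := by simp [φ]
  have ft : φ t = 1 := by simp [φ, ntw]
  have fr : φ r = 2 := by simp [φ, nrw, nrt]
  have fq : φ q = 3 := by simp [φ, nqw, nqt, nqr]
  have fp : φ p = 4 := by simp [φ, npw, npt, npr, npq]
  have h := pot hG {p, q, r, t, w} w (by simp) φ ?_ ?_ p (by simp)
    (Walk.cons hcp.symm (Walk.cons hcw Walk.nil))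
  · rw [fw, fp] at h
    simp at h
  · intro x hx hxt
    simp only [Set.mem_insert_iff, Set.mem_singleton_iff] at hx
    rcases hx with rfl | rfl | rfl | rfl | rfl
    · exact ⟨q, by simp, hpq, by omega⟩
    · exact ⟨r, by simp, hqr, by omega⟩
    · exact ⟨t, by simp, hrt, by omega⟩
    · exact ⟨w, by simp, htw, by omega⟩
    · exact absurd rfl hxt
  · intro a ha b hb hab
    simp only [Set.mem_insert_iff, Set.mem_singleton_iff] at ha hb
    rcases ha with rfl | rfl | rfl | rfl | rfl <;>
      rcases hb with rfl | rfl | rfl | rfl | rfl <;>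
      first
        | omega
        | exact absurd hab (G.loopless.irrefl _)
        | exact absurd hab hpr
        | exact absurd hab hqt
        | exact absurd hab hpt
        | exact absurd hab hpw
        | exact absurd hab hqw
        | exact absurd hab hrw

/-! ### Levels from a root -/

section Levels

variable (hc : G.Connected) (r : V)

include hc

theorem lev_adj {x y : V} (h : G.Adj x y) : G.dist x r ≤ G.dist y r + 1 := by
  have h1 := hc.dist_triangle (u := x) (v := y) (w := r)
  have h2 : G.dist x y = 1 := dist_eq_one_iff_adj.2 h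
  omega

theorem lev_down {x : V} (h : x ≠ r) : ∃ y, G.Adj x y ∧ G.dist y r + 1 = G.dist x r := by
  obtain ⟨p, hp⟩ := hc.exists_walk_length_eq_dist x r
  cases p with
  | nil => exact absurd rfl h
  | cons hxy q =>
    rename_i y
    refine ⟨y, hxy, ?_⟩
    have h1 := G.dist_le q
    have h2 := lev_adj hc r hxy
    simp only [Walk.length_cons] at hp
    omega

theorem lev_zero {x : V} (h : G.dist x r = 0) : x = r := hc.dist_eq_zero_iff.1 h

/-- adjacent vertices of a level have the same neighbours in the previous level -/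
theorem F1 (hG : DistHereditary G) {x y a : V} (hxy : G.Adj x y)
    (hl : G.dist x r = G.dist y r) (ha : G.dist a r + 1 = G.dist x r) (hxa : G.Adj x a) :
    G.Adj y a := by
  classical
  by_contra hya
  have nxy := hxy.ne
  have nay : a ≠ y := by rintro rfl; omega
  have hrr : G.dist r r = 0 := G.dist_self
  have nry : r ≠ y := by rintro rfl; omega
  set k := G.dist y r with hk
  have hnr : ¬ G.Adj r y := by
    intro h
    have h1 := lev_adj hc r h.symm
    have h0 : a = r := lev_zero hc r (by omega)
    exact hya (h0 ▸ h.symm)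
  let s : Set V := {w | w = y ∨ w = x ∨ (G.dist w r < k ∧ ¬ G.Adj w y)}
  let φ : V → ℕ := fun w => if w = y then k + 1 else G.dist w r
  have fy : φ y = k + 1 := by simp [φ]
  have fo : ∀ w, w ≠ y → φ w = G.dist w r := fun w hw => by simp [φ, hw]
  obtain ⟨p, hp⟩ := hc.exists_walk_length_eq_dist y r
  have h := pot hG s r (Or.inr (Or.inr ⟨by omega, hnr⟩)) φ ?_ ?_ y (Or.inl rfl) p
  · rw [fy, fo r nry] at h; omega
  · intro w hw hwr
    rcases hw with rfl | rfl | ⟨h1, h2⟩
    · exact ⟨x, Or.inr (Or.inl rfl), hxy.symm, by rw [fy, fo x nxy]; omega⟩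
    · refine ⟨a, Or.inr (Or.inr ⟨by omega, fun h => hya h.symm⟩), hxa, ?_⟩
      rw [fo _ nxy, fo a nay]; omega
    · obtain ⟨w', hw', h3⟩ := lev_down hc r hwr
      have nwy : w ≠ y := by rintro rfl; omega
      have nwy' : w' ≠ y := by rintro rfl; omega
      refine ⟨w', Or.inr (Or.inr ⟨by omega, fun h => ?_⟩), hw', ?_⟩
      · have := lev_adj hc r h.symm; omega
      · rw [fo _ nwy, fo _ nwy']; omega
  · intro u hu v hv huv
    by_cases huy : u = y
    · subst huy
      rcases hv with rfl | rfl | ⟨h1, h2⟩
      · exact absurd huv (G.loopless.irrefl _)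
      · rw [fy, fo _ nxy]; omega
      · exact absurd huv.symm h2
    · by_cases hvy : v = y
      · subst hvy
        have := lev_adj hc r huv
        rw [fy, fo u huy]; omega
      · rw [fo u huy, fo v hvy]; exact lev_adj hc r huv

/-- the neighbours of a vertex in the previous level have the same neighbours two levels
down -/
theorem F2 (hG : DistHereditary G) {x a b c : V} (hxa : G.Adj x a) (hxb : G.Adj x b)
    (ha : G.dist a r + 1 = G.dist x r) (hb : G.dist b r + 1 = G.dist x r)
    (hac : G.Adj a c) (hcl : G.dist c r + 1 = G.dist a r) : G.Adj b c := by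
  classical
  by_contra hbc
  by_cases hab : G.Adj a b
  · exact hbc (F1 hc r hG hab (by omega) hcl hac)
  have nab : a ≠ b := by rintro rfl; exact hbc hac
  have nxb := hxb.ne
  set k := G.dist x r with hk
  have hrr : G.dist r r = 0 := G.dist_self
  have hnr : ¬ G.Adj r b := by
    intro h
    have h1 := lev_adj hc r h.symm
    have h0 : c = r := lev_zero hc r (by omega)
    exact hbc (h0 ▸ h.symm)
  have nrb : r ≠ b := by
    rintro rfl
    omega
  have ncb : c ≠ b := by rintro rfl; omega
  let s : Set V := {w | w = b ∨ w = x ∨ w = a ∨ (G.dist w r + 1 < k ∧ ¬ G.Adj w b)}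
  let φ : V → ℕ := fun w => if w = b then k + 1 else G.dist w r
  have fy : φ b = k + 1 := by simp [φ]
  have fo : ∀ w, w ≠ b → φ w = G.dist w r := fun w hw => by simp [φ, hw]
  obtain ⟨p, hp⟩ := hc.exists_walk_length_eq_dist b r
  have h := pot hG s r (Or.inr (Or.inr (Or.inr ⟨by omega, hnr⟩))) φ ?_ ?_ b (Or.inl rfl) p
  · rw [fy, fo r nrb] at h; omega
  · intro w hw hwr
    rcases hw with rfl | rfl | rfl | ⟨h1, h2⟩
    · exact ⟨x, Or.inr (Or.inl rfl), hxb.symm, by rw [fy, fo x nxb]; omega⟩
    · exact ⟨a, Or.inr (Or.inr (Or.inl rfl)), hxa, by rw [fo _ nxb, fo a nab]; omega⟩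
    · refine ⟨c, Or.inr (Or.inr (Or.inr ⟨by omega, fun h => hbc h.symm⟩)), hac, ?_⟩
      rw [fo _ nab, fo c ncb]; omega
    · obtain ⟨w', hw', h3⟩ := lev_down hc r hwr
      have nwy : w ≠ b := by rintro rfl; omega
      have nwy' : w' ≠ b := by rintro rfl; omega
      refine ⟨w', Or.inr (Or.inr (Or.inr ⟨by omega, fun h => ?_⟩)), hw', ?_⟩
      · have := lev_adj hc r h.symm; omega
      · rw [fo _ nwy, fo _ nwy']; omega
  · intro u hu v hv huv
    by_cases huy : u = b
    · subst huy
      rcases hv with rfl | rfl | rfl | ⟨h1, h2⟩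
      · exact absurd huv (G.loopless.irrefl _)
      · rw [fy, fo _ nxb]
      · exact absurd huv.symm hab
      · exact absurd huv.symm h2
    · by_cases hvy : v = b
      · subst hvy
        have := lev_adj hc r huv
        rw [fy, fo u huy]; omega
      · rw [fo u huy, fo v hvy]; exact lev_adj hc r huv

/-- the neighbours of a vertex in the previous level are not distinguished by the other
vertices of that level -/
theorem F3 (hG : DistHereditary G) {x a b z : V} (hxa : G.Adj x a) (hxb : G.Adj x b)
    (ha : G.dist a r + 1 = G.dist x r) (hb : G.dist b r + 1 = G.dist x r)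
    (hz : G.dist z r + 1 = G.dist x r) (hxz : ¬ G.Adj x z) (haz : G.Adj a z) :
    G.Adj b z := by
  by_contra hbz
  have har : a ≠ r := by
    rintro rfl
    have h1 : G.dist z a = 0 := by
      have := G.dist_self (v := a)
      omega
    have h2 := lev_zero hc a h1
    exact haz.ne h2.symm
  obtain ⟨c, hac, hcl⟩ := lev_down hc r har
  have hbc : G.Adj b c := F2 hc r hG hxa hxb ha hb hac hcl
  have hzc : G.Adj z c := F1 hc r hG haz (by omega) hcl hac
  have hxc : ¬ G.Adj x c := by
    intro h; have := lev_adj hc r h; omega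
  by_cases hab : G.Adj a b
  · exact noP4 hG hzc hbc.symm hxb.symm (fun h => hbz h.symm) (fun h => hxc h.symm)
      (fun h => hxz h.symm) haz hxa.symm
  · exact noP4 hG haz.symm hxa.symm hxb (fun h => hxz h.symm) hab (fun h => hbz h.symm)
      hzc.symm hbc.symm

/-- neighbourhoods in the previous level are nested or disjoint -/
theorem F4 (hG : DistHereditary G) {x x' a b b' : V} (hl : G.dist x r = G.dist x' r)
    (hxa : G.Adj x a) (hxa' : G.Adj x' a) (hxb : G.Adj x b) (hxb' : ¬ G.Adj x' b)
    (hb' : G.Adj x' b') (hb'' : ¬ G.Adj x b')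
    (ha : G.dist a r + 1 = G.dist x r) (hbl : G.dist b r + 1 = G.dist x r)
    (hbl' : G.dist b' r + 1 = G.dist x r) : False := by
  have hxx : ¬ G.Adj x x' := fun h => hxb' (F1 hc r hG h hl hbl hxb)
  have nab : a ≠ b := by rintro rfl; exact hxb' hxa'
  have har : a ≠ r := by
    rintro rfl
    have h1 : G.dist b a = 0 := by
      have := G.dist_self (v := a)
      omega
    exact nab (lev_zero hc a h1).symm
  obtain ⟨c, hac, hcl⟩ := lev_down hc r har
  have hbc : G.Adj b c := F2 hc r hG hxa hxb ha hbl hac hcl
  have hbc' : G.Adj b' c := F2 hc r hG hxa' hb' (by omega) (by omega) hac hcl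
  have hxc : ¬ G.Adj x c := by
    intro h; have := lev_adj hc r h; omega
  have hxc' : ¬ G.Adj x' c := by
    intro h; have := lev_adj hc r h; omega
  by_cases hbb : G.Adj b b'
  · exact noP4 hG hxb hbb hb'.symm hb'' (fun h => hxb' h.symm) hxx hxa.symm hxa'.symm
  · exact noP5 hG hxb hbc hbc'.symm hb'.symm hxc hbb hb'' hxx (fun h => hxb' h.symm)
      (fun h => hxc' h.symm) hxa.symm hxa'.symm

end Levels

/-- neighbourhoods contain no induced path on four vertices -/
theorem nbhd_P4 (hG : DistHereditary G) {x p q r t : V} (hp : G.Adj x p) (ht : G.Adj x t)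
    (hpq : G.Adj p q) (hqr : G.Adj q r) (hrt : G.Adj r t) (hpr : ¬ G.Adj p r)
    (hqt : ¬ G.Adj q t) (hpt : ¬ G.Adj p t) : False :=
  noP4 hG hpq hqr hrt hpr hqt hpt hp ht

end X249.DH
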