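import Pool.Agent.X249.DH.Twins

/-!
# Codes of finite distance-hereditary graphs
-/

namespace X249.DH

open SimpleGraph

variable {V : Type*} {G : SimpleGraph V}

/-- `q` is the first element (for `lt`) in which `A` and `B` differ -/
def FD (lt : V → V → Prop) (A B : Finset V) (q : V) : Prop :=
  ¬ (q ∈ A ↔ q ∈ B) ∧ ∀ p, lt p q → (p ∈ A ↔ p ∈ B)

/-- the adjacency rule of the universal graph -/
def Rule (lt : V → V → Prop) (S C : V → Prop) (A B : Finset V) : Prop :=
  ∃ q, FD lt A B q ∧ ¬ S q ∧ ∀ p, (p ∈ A ∨ p ∈ B) → lt q p → ¬ C p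

theorem FD.symm {lt : V → V → Prop} {A B : Finset V} {q : V} (h : FD lt A B q) :
    FD lt B A q :=
  ⟨fun e => h.1 e.symm, fun p hp => (h.2 p hp).symm⟩

theorem Rule.symm {lt : V → V → Prop} {S C : V → Prop} {A B : Finset V}
    (h : Rule lt S C A B) : Rule lt S C B A := by
  obtain ⟨q, h1, h2, h3⟩ := h
  exact ⟨q, h1.symm, h2, fun p hp => h3 p hp.symm⟩

theorem Rule.comm {lt : V → V → Prop} {S C : V → Prop} {A B : Finset V} :
    Rule lt S C A B ↔ Rule lt S C B A := ⟨Rule.symm, Rule.symm⟩

/-- codes of the vertices in `F` -/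
def IsConfig (G : SimpleGraph V) (idx : V → ℕ) (r : V) (F : Finset V)
    (f : V → Finset V) (h : V → ℚ) (S C : V → Prop) : Prop :=
  (∀ x ∈ F, ∀ y ∈ F, h x = h y → x = y) ∧ f r = ∅ ∧ (∀ y ∈ F, y ≠ r → y ∈ f y) ∧
  (∀ y ∈ F, ∀ x ∈ f y, x ∈ F ∧ idx x ≤ idx y) ∧
  (∀ y ∈ F, ∀ z ∈ F, y ≠ z → (G.Adj y z ↔ Rule (fun a b => h a < h b) S C (f y) (f z)))

/-- sets containing the root in which every other vertex has an earlier neighbour -/
def Good (G : SimpleGraph V) (idx : V → ℕ) (r : V) (F : Finset V) : Prop :=
  r ∈ F ∧ ∀ y ∈ F, y ≠ r → ∃ z ∈ F, G.Adj y z ∧ idx z < idx y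

theorem Good.connected {idx : V → ℕ} {r : V} {F : Finset V} (hF : Good G idx r F) :
    (G.induce (F : Set V)).Connected :=
  conn_pot (F : Set V) r hF.1 idx (fun w hw hwr => hF.2 w hw hwr)

theorem exists_FD (h : V → ℚ) {F A B : Finset V}
    (hinj : ∀ x ∈ F, ∀ y ∈ F, h x = h y → x = y) (hA : A ⊆ F) (hB : B ⊆ F) (hne : A ≠ B) :
    ∃ q ∈ F, FD (fun a b => h a < h b) A B q := by
  classical
  have hn : (F.filter (fun q => ¬ (q ∈ A ↔ q ∈ B))).Nonempty := by
    by_contra hno
    rw [Finset.not_nonempty_iff_eq_empty, Finset.filter_eq_empty_iff] at hno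
    apply hne
    ext x
    constructor
    · intro hx; exact (not_not.1 (hno (hA hx))).1 hx
    · intro hx; exact (not_not.1 (hno (hB hx))).2 hx
  obtain ⟨q, hq, hmin⟩ := Finset.exists_min_image _ h hn
  rw [Finset.mem_filter] at hq
  refine ⟨q, hq.1, hq.2, fun p hp => ?_⟩
  by_contra hno
  have hpF : p ∈ F := by
    by_contra hpF
    exact hno (iff_of_false (fun e => hpF (hA e)) (fun e => hpF (hB e)))
  have := hmin p (Finset.mem_filter.2 ⟨hpF, hno⟩)
  exact absurd hp (not_lt.2 this)

theorem rule_iff {h : V → ℚ} {F A B : Finset V} {S C : V → Prop}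
    (hinj : ∀ x ∈ F, ∀ y ∈ F, h x = h y → x = y) (hA : A ⊆ F) (hB : B ⊆ F) {q : V}
    (hq : FD (fun a b => h a < h b) A B q) :
    Rule (fun a b => h a < h b) S C A B ↔
      (¬ S q ∧ ∀ p, (p ∈ A ∨ p ∈ B) → h q < h p → ¬ C p) := by
  constructor
  · rintro ⟨q', h1, h2, h3⟩
    have hmem : ∀ {q}, FD (fun a b => h a < h b) A B q → q ∈ F := by
      intro q hq
      by_contra hqF
      exact hq.1 (iff_of_false (fun e => hqF (hA e)) (fun e => hqF (hB e)))
    have : q = q' := by
      rcases lt_trichotomy (h q) (h q') with h4 | h4 | h4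
      · exact absurd (h1.2 q h4) hq.1
      · exact hinj q (hmem hq) q' (hmem h1) h4
      · exact absurd (hq.2 q' h4) h1.1
    rw [this]
    exact ⟨h2, h3⟩
  · rintro ⟨h2, h3⟩
    exact ⟨q, hq, h2, h3⟩

theorem config_exists (hG : DistHereditary G) {idx : V → ℕ} (hidx : Function.Injective idx)
    (r : V) : ∀ n, ∀ F : Finset V, F.card ≤ n → Good G idx r F →
      ∃ f h S C, IsConfig G idx r F f h S C := by
  classical
  intro n
  induction n with
  | zero =>
    intro F hF hgood
    have := Finset.card_pos.2 ⟨r, hgood.1⟩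
    omega
  | succ n ih =>
    intro F hF hgood
    have hpos := Finset.card_pos.2 ⟨r, hgood.1⟩
    by_cases h1 : F.card = 1
    · obtain ⟨a, ha⟩ := Finset.card_eq_one.1 h1
      have har : a = r := by
        have := hgood.1; rw [ha, Finset.mem_singleton] at this; exact this.symm
      subst har
      refine ⟨fun _ => ∅, fun _ => 0, fun _ => False, fun _ => False, ?_, rfl, ?_, ?_, ?_⟩
      · intro x hx y hy _
        rw [ha, Finset.mem_singleton] at hx hy
        rw [hx, hy]
      · intro y hy hya
        rw [ha, Finset.mem_singleton] at hy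
        exact absurd hy hya
      · intro y _ x hx; simp at hx
      · intro x hx y hy hne
        rw [ha, Finset.mem_singleton] at hx hy
        exact absurd (hx.trans hy.symm) hne
    by_cases h2 : F.card = 2
    · obtain ⟨v, hvF, hvr⟩ : ∃ v ∈ F, v ≠ r := by
        by_contra hno
        push Not at hno
        have : F ⊆ {r} := fun x hx => Finset.mem_singleton.2 (hno x hx)
        have := Finset.card_le_card this
        simp at this
        omega
      have hFe : F = {r, v} := by
        symm
        apply Finset.eq_of_subset_of_card_le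
        · intro x hx
          simp only [Finset.mem_insert, Finset.mem_singleton] at hx
          rcases hx with rfl | rfl
          · exact hgood.1
          · exact hvF
        · rw [Finset.card_pair hvr.symm]; omega
      have hmem : ∀ x, x ∈ F ↔ x = r ∨ x = v := by
        intro x; rw [hFe]; simp
      have hadj : G.Adj v r := by
        obtain ⟨z, hz, hvz, hlt⟩ := hgood.2 v hvF hvr
        rcases (hmem z).1 hz with rfl | rfl
        · exact hvz
        · exact absurd hvz (G.loopless.irrefl _)
      let h : V → ℚ := fun w => if w = v then 1 else 0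
      let f : V → Finset V := fun w => if w = v then {v} else ∅
      have fv : f v = {v} := by simp [f]
      have fr : f r = ∅ := by simp [f, hvr.symm]
      have hrule : Rule (fun a b => h a < h b) (fun _ => False) (fun _ => False)
          (f v) (f r) := by
        refine ⟨v, ⟨?_, ?_⟩, fun e => e, fun _ _ _ e => e⟩
        · rw [fv, fr]; simp
        · intro p hp
          have : p ≠ v := by rintro rfl; exact lt_irrefl _ hp
          rw [fv, fr]; simp [this]
      refine ⟨f, h, fun _ => False, fun _ => False, ?_, fr, ?_, ?_, ?_⟩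
      · intro x hx y hy hxy
        rcases (hmem x).1 hx with rfl | rfl <;> rcases (hmem y).1 hy with rfl | rfl
        · rfl
        · simp [h, hvr.symm] at hxy
        · simp [h, hvr.symm] at hxy
        · rfl
      · intro y hy hyr
        rcases (hmem y).1 hy with rfl | rfl
        · exact absurd rfl hyr
        · rw [fv]; simp
      · intro y hy x hx
        rcases (hmem y).1 hy with rfl | rfl
        · rw [fr] at hx; simp at hx
        · rw [fv, Finset.mem_singleton] at hx; rw [hx]; exact ⟨hvF, le_rfl⟩
      · intro y hy z hz hne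
        rcases (hmem y).1 hy with rfl | rfl <;> rcases (hmem z).1 hz with rfl | rfl
        · exact absurd rfl hne
        · exact iff_of_true hadj.symm hrule.symm
        · exact iff_of_true hadj hrule
        · exact absurd rfl hne
    -- the inductive step
    have h3 : 3 ≤ F.card := by omega
    have hcon := hgood.connected
    have hDH : DistHereditary (G.induce (F : Set V)) := hG.comap (Embedding.induce _)
    have hcard : 3 ≤ Fintype.card (F : Set V) := by
      rw [show Fintype.card (F : Set V) = F.card from by simp]; exact h3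
    obtain ⟨x, hxF, y, hyF, hxr, hyr, hlt, hcase⟩ : ∃ x ∈ F, ∃ y ∈ F, x ≠ r ∧ y ≠ r ∧
        idx y < idx x ∧ ((∀ z ∈ F, z ≠ x → z ≠ y → (G.Adj x z ↔ G.Adj y z)) ∨
          (G.Adj x y ∧ ∀ z ∈ F, G.Adj x z → z = y)) := by
      rcases bm hcon hDH ⟨r, hgood.1⟩ hcard with
        ⟨x, y, hxy, hxr, hyr, htw⟩ | ⟨x, y, hxr, hyr, hxy, hp⟩
      · have hxy' : (x : V) ≠ y := fun e => hxy (Subtype.ext e)
        have hxr' : (x : V) ≠ r := fun e => hxr (Subtype.ext e)
        have hyr' : (y : V) ≠ r := fun e => hyr (Subtype.ext e)
        have htw' : ∀ z ∈ F, z ≠ (x : V) → z ≠ (y : V) →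
            (G.Adj (x : V) z ↔ G.Adj (y : V) z) := by
          intro z hz h1 h2
          exact htw ⟨z, hz⟩ (fun e => h1 (congrArg Subtype.val e))
            (fun e => h2 (congrArg Subtype.val e))
        rcases lt_trichotomy (idx y) (idx x) with h | h | h
        · exact ⟨x, x.2, y, y.2, hxr', hyr', h, Or.inl htw'⟩
        · exact absurd (hidx h) hxy'.symm
        · exact ⟨y, y.2, x, x.2, hyr', hxr', h,
            Or.inl (fun z hz h1 h2 => (htw' z hz h2 h1).symm)⟩
      · have hxr' : (x : V) ≠ r := fun e => hxr (Subtype.ext e)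
        have hyr' : (y : V) ≠ r := fun e => hyr (Subtype.ext e)
        have hp' : ∀ z ∈ F, G.Adj (x : V) z → z = y := by
          intro z hz h
          exact congrArg Subtype.val (hp ⟨z, hz⟩ h)
        obtain ⟨z, hz, hxz, hlt⟩ := hgood.2 x x.2 hxr'
        rw [hp' z hz hxz] at hlt
        exact ⟨x, x.2, y, y.2, hxr', hyr', hlt, Or.inr ⟨hxy, hp'⟩⟩
    have hxy : x ≠ y := by rintro rfl; exact lt_irrefl _ hlt
    -- the smaller set is good
    have hgood' : Good G idx r (F.erase x) := by
      refine ⟨Finset.mem_erase.2 ⟨hxr.symm, hgood.1⟩, ?_⟩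
      intro w hw hwr
      rw [Finset.mem_erase] at hw
      obtain ⟨z, hz, hwz, hzlt⟩ := hgood.2 w hw.2 hwr
      by_cases hzx : z = x
      · subst hzx
        have hwy : w ≠ y := by rintro rfl; omega
        rcases hcase with htw | ⟨_, hp⟩
        · exact ⟨y, Finset.mem_erase.2 ⟨hxy.symm, hyF⟩,
            ((htw w hw.2 hw.1 hwy).1 hwz.symm).symm, by omega⟩
        · exact absurd (hp w hw.2 hwz.symm) hwy
      · exact ⟨z, Finset.mem_erase.2 ⟨hzx, hz⟩, hwz, hzlt⟩
    have hcard' : (F.erase x).card ≤ n := by
      rw [Finset.card_erase_of_mem hxF]; omega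
    obtain ⟨f, h, S, C, hinj, hfr, hself, hsub, hadj⟩ := ih _ hcard' hgood'
    have hyF' : y ∈ F.erase x := Finset.mem_erase.2 ⟨hxy.symm, hyF⟩
    obtain ⟨M, hM⟩ := ((F.erase x).image h).exists_le
    have hM' : ∀ w ∈ F.erase x, h w < M + 1 := fun w hw =>
      lt_of_le_of_lt (hM _ (Finset.mem_image_of_mem h hw)) (by linarith)
    let P : Prop := ¬ ∀ z ∈ F, z ≠ x → z ≠ y → (G.Adj x z ↔ G.Adj y z)
    have hP1 : ∀ z ∈ F, z ≠ x → z ≠ y → (G.Adj x z ↔ (G.Adj y z ∧ ¬ P)) := by
      intro z hz hzx hzy
      by_cases hp : P
      · rcases hcase with htw | ⟨_, hpd⟩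
        · exact absurd htw hp
        · exact iff_of_false (fun e => hzy (hpd z hz e)) (fun e => e.2 hp)
      · rw [not_not.1 hp z hz hzx hzy]
        exact ⟨fun e => ⟨e, hp⟩, fun e => e.1⟩
    let f' : V → Finset V := fun w => if w = x then insert x (f y) else f w
    let h' : V → ℚ := fun w => if w = x then M + 1 else h w
    let S' : V → Prop := fun w => if w = x then ¬ G.Adj x y else S w
    let C' : V → Prop := fun w => if w = x then P else C w
    have f'x : f' x = insert x (f y) := by simp [f']
    have f'o : ∀ w, w ≠ x → f' w = f w := fun w hw => by simp [f', hw]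
    have h'x : h' x = M + 1 := by simp [h']
    have h'o : ∀ w, w ≠ x → h' w = h w := fun w hw => by simp [h', hw]
    have S'x : S' x ↔ ¬ G.Adj x y := by simp [S']
    have S'o : ∀ w, w ≠ x → (S' w ↔ S w) := fun w hw => by simp [S', hw]
    have C'x : C' x ↔ P := by simp [C']
    have C'o : ∀ w, w ≠ x → (C' w ↔ C w) := fun w hw => by simp [C', hw]
    have hsubF : ∀ w ∈ F.erase x, f w ⊆ F.erase x := fun w hw p hp => (hsub w hw p hp).1
    have hxn : ∀ w ∈ F.erase x, x ∉ f w := fun w hw hx =>
      (Finset.mem_erase.1 (hsubF w hw hx)).1 rfl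
    have hinj' : ∀ a ∈ F, ∀ b ∈ F, h' a = h' b → a = b := by
      intro a ha b hb hab
      by_cases hax : a = x <;> by_cases hbx : b = x
      · rw [hax, hbx]
      · rw [hax, h'x, h'o b hbx] at hab
        have := hM' b (Finset.mem_erase.2 ⟨hbx, hb⟩)
        exact absurd hab.symm this.ne
      · rw [hbx, h'x, h'o a hax] at hab
        have := hM' a (Finset.mem_erase.2 ⟨hax, ha⟩)
        exact absurd hab this.ne
      · rw [h'o a hax, h'o b hbx] at hab
        exact hinj a (Finset.mem_erase.2 ⟨hax, ha⟩) b (Finset.mem_erase.2 ⟨hbx, hb⟩) hab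
    have hsub' : ∀ w ∈ F, ∀ p ∈ f' w, p ∈ F ∧ idx p ≤ idx w := by
      intro w hw p hp
      by_cases hwx : w = x
      · rw [hwx, f'x, Finset.mem_insert] at hp
        rw [hwx]
        rcases hp with rfl | hp
        · exact ⟨hxF, le_rfl⟩
        · obtain ⟨h4, h5⟩ := hsub y hyF' p hp
          exact ⟨Finset.mem_of_mem_erase h4, by omega⟩
      · rw [f'o w hwx] at hp
        obtain ⟨h4, h5⟩ := hsub w (Finset.mem_erase.2 ⟨hwx, hw⟩) p hp
        exact ⟨Finset.mem_of_mem_erase h4, h5⟩
    have hself' : ∀ w ∈ F, w ≠ r → w ∈ f' w := by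
      intro w hw hwr
      by_cases hwx : w = x
      · rw [hwx, f'x]; simp
      · rw [f'o w hwx]; exact hself w (Finset.mem_erase.2 ⟨hwx, hw⟩) hwr
    -- the pairs containing `x`
    have hxz : ∀ z ∈ F, z ≠ x →
        (G.Adj x z ↔ Rule (fun a b => h' a < h' b) S' C' (f' x) (f' z)) := by
      intro z hz hzx
      have hzF' : z ∈ F.erase x := Finset.mem_erase.2 ⟨hzx, hz⟩
      have hsx : f' x ⊆ F := fun p hp => (hsub' x hxF p hp).1
      have hsz : f' z ⊆ F := fun p hp => (hsub' z hz p hp).1
      by_cases hzy : z = y
      · subst hzy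
        have hfd : FD (fun a b => h' a < h' b) (f' x) (f' z) x := by
          refine ⟨?_, ?_⟩
          · rw [f'x, f'o z hzx]
            intro e
            exact hxn z hzF' (e.1 (Finset.mem_insert_self _ _))
          · intro p hp
            have hpx : p ≠ x := by rintro rfl; exact lt_irrefl _ hp
            rw [f'x, f'o z hzx, Finset.mem_insert]
            simp [hpx]
        rw [rule_iff hinj' hsx hsz hfd, S'x, not_not]
        refine ⟨fun e => ⟨e, ?_⟩, fun e => e.1⟩
        intro p hp hlt
        have hpF : p ∈ F := hp.elim (fun e => hsx e) (fun e => hsz e)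
        by_cases hpx : p = x
        · rw [hpx] at hlt; exact absurd hlt (lt_irrefl _)
        · rw [h'x, h'o p hpx] at hlt
          exact absurd hlt (not_lt.2 (hM' p (Finset.mem_erase.2 ⟨hpx, hpF⟩)).le)
      · -- a third vertex
        have hne : f y ≠ f z := by
          intro e
          by_cases hzr : z = r
          · rw [hzr, hfr] at e
            have := hself y hyF' hyr
            rw [e] at this; simp at this
          · have h4 : z ∈ f y := by rw [e]; exact hself z hzF' hzr
            have h5 : y ∈ f z := by rw [← e]; exact hself y hyF' hyr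
            have h6 := (hsub y hyF' z h4).2
            have h7 := (hsub z hzF' y h5).2
            exact hzy (hidx (le_antisymm h6 h7))
        obtain ⟨q, hqF, hq⟩ := exists_FD h hinj (hsubF y hyF') (hsubF z hzF') hne
        have hqx : q ≠ x := (Finset.mem_erase.1 hqF).1
        have hfd : FD (fun a b => h' a < h' b) (f' x) (f' z) q := by
          refine ⟨?_, ?_⟩
          · rw [f'x, f'o z hzx, Finset.mem_insert]
            simp only [hqx, false_or]
            exact hq.1
          · intro p hp
            have hpx : p ≠ x := by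
              rintro rfl
              simp only [h'x, h'o q hqx] at hp
              exact absurd hp (not_lt.2 (hM' q hqF).le)
            rw [f'x, f'o z hzx, Finset.mem_insert]
            simp only [hpx, false_or]
            simp only [h'o p hpx, h'o q hqx] at hp
            exact hq.2 p hp
        rw [rule_iff hinj' hsx hsz hfd, S'o q hqx, hP1 z hz hzx hzy,
          hadj y hyF' z hzF' (Ne.symm hzy), rule_iff hinj (hsubF y hyF') (hsubF z hzF') hq]
        constructor
        · rintro ⟨⟨h4, h5⟩, h6⟩
          refine ⟨h4, fun p hp hlt => ?_⟩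
          by_cases hpx : p = x
          · rw [hpx, C'x]; exact h6
          · rw [C'o p hpx]
            rw [h'o q hqx, h'o p hpx] at hlt
            refine h5 p ?_ hlt
            rw [f'x, f'o z hzx, Finset.mem_insert] at hp
            simpa [hpx] using hp
        · rintro ⟨h4, h5⟩
          refine ⟨⟨h4, fun p hp hlt => ?_⟩, ?_⟩
          · have hpF : p ∈ F.erase x :=
              hp.elim (fun e => hsubF y hyF' e) (fun e => hsubF z hzF' e)
            have hpx : p ≠ x := (Finset.mem_erase.1 hpF).1
            rw [← C'o p hpx]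
            refine h5 p ?_ (by rw [h'o q hqx, h'o p hpx]; exact hlt)
            rw [f'x, f'o z hzx, Finset.mem_insert]
            rcases hp with hp | hp
            · exact Or.inl (Or.inr hp)
            · exact Or.inr hp
          · rw [← C'x]
            refine h5 x (Or.inl ?_) (by rw [h'o q hqx, h'x]; exact hM' q hqF)
            rw [f'x]; simp
    refine ⟨f', h', S', C', hinj', ?_, hself', hsub', ?_⟩
    · rw [f'o r hxr.symm, hfr]
    · intro a ha b hb hab
      by_cases hax : a = x
      · rw [hax]
        exact hxz b hb (fun e => hab (hax.trans e.symm))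
      · by_cases hbx : b = x
        · rw [hbx, G.adj_comm, Rule.comm]
          exact hxz a ha hax
        · have haF' : a ∈ F.erase x := Finset.mem_erase.2 ⟨hax, ha⟩
          have hbF' : b ∈ F.erase x := Finset.mem_erase.2 ⟨hbx, hb⟩
          have hne : f a ≠ f b := by
            intro e
            by_cases har : a = r
            · have hbr : b ≠ r := fun e' => hab (har.trans e'.symm)
              rw [har, hfr] at e
              have := hself b hbF' hbr
              rw [← e] at this; simp at this
            · by_cases hbr : b = r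
              · rw [hbr, hfr] at e
                have := hself a haF' har
                rw [e] at this; simp at this
              · have h4 : b ∈ f a := by rw [e]; exact hself b hbF' hbr
                have h5 : a ∈ f b := by rw [← e]; exact hself a haF' har
                have h6 := (hsub a haF' b h4).2
                have h7 := (hsub b hbF' a h5).2
                exact hab (hidx (le_antisymm h7 h6))
          obtain ⟨q, hqF, hq⟩ := exists_FD h hinj (hsubF a haF') (hsubF b hbF') hne
          have hqx : q ≠ x := (Finset.mem_erase.1 hqF).1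
          have hfd : FD (fun a b => h' a < h' b) (f' a) (f' b) q := by
            refine ⟨?_, ?_⟩
            · rw [f'o a hax, f'o b hbx]; exact hq.1
            · intro p hp
              rw [f'o a hax, f'o b hbx]
              by_cases hpx : p = x
              · rw [hpx]; exact iff_of_false (hxn a haF') (hxn b hbF')
              · simp only [h'o p hpx, h'o q hqx] at hp
                exact hq.2 p hp
          have hsa : f' a ⊆ F := fun p hp => (hsub' a ha p hp).1
          have hsb : f' b ⊆ F := fun p hp => (hsub' b hb p hp).1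
          rw [rule_iff hinj' hsa hsb hfd, S'o q hqx, hadj a haF' b hbF' hab,
            rule_iff hinj (hsubF a haF') (hsubF b hbF') hq]
          have hiff : ∀ p, (p ∈ f a ∨ p ∈ f b) → p ≠ x := by
            intro p hp
            exact hp.elim (fun e => (Finset.mem_erase.1 (hsubF a haF' e)).1)
              (fun e => (Finset.mem_erase.1 (hsubF b hbF' e)).1)
          rw [f'o a hax, f'o b hbx]
          constructor
          · rintro ⟨h4, h5⟩
            refine ⟨h4, fun p hp hlt => ?_⟩
            have hpx := hiff p hp
            rw [C'o p hpx]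
            exact h5 p hp (by rw [h'o q hqx, h'o p hpx] at hlt; exact hlt)
          · rintro ⟨h4, h5⟩
            refine ⟨h4, fun p hp hlt => ?_⟩
            have hpx := hiff p hp
            rw [← C'o p hpx]
            exact h5 p hp (by rw [h'o q hqx, h'o p hpx]; exact hlt)

end X249.DH
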