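import Pool.Agent.X249.DH.Basic

/-!
# Elimination orders give distance-hereditary graphs
-/

namespace X249.DH

open SimpleGraph

variable {V : Type*} {G : SimpleGraph V}

/-- there is a walk of length at most `n` from `u` to `v` inside `F` -/
def Rch (G : SimpleGraph V) (F : Finset V) : ℕ → V → V → Prop
  | 0, u, v => u = v ∧ u ∈ F
  | n + 1, u, v => (u = v ∧ u ∈ F) ∨ (u ∈ F ∧ ∃ w, G.Adj u w ∧ Rch G F n w v)

theorem Rch.refl {F : Finset V} {u : V} (h : u ∈ F) (n : ℕ) : Rch G F n u u := by
  cases n with
  | zero => exact ⟨rfl, h⟩
  | succ n => exact Or.inl ⟨rfl, h⟩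

theorem Rch.step {F : Finset V} {u w v : V} {n : ℕ} (hu : u ∈ F) (h : G.Adj u w)
    (hw : Rch G F n w v) : Rch G F (n + 1) u v := Or.inr ⟨hu, w, h, hw⟩

theorem Rch.left {F : Finset V} : ∀ {n : ℕ} {u v : V}, Rch G F n u v → u ∈ F
  | 0, _, _, h => h.2
  | _ + 1, _, _, Or.inl h => h.2
  | _ + 1, _, _, Or.inr h => h.1

theorem Rch.right {F : Finset V} : ∀ {n : ℕ} {u v : V}, Rch G F n u v → v ∈ F
  | 0, _, _, h => h.1 ▸ h.2
  | _ + 1, _, _, Or.inl h => h.1 ▸ h.2
  | _ + 1, _, _, Or.inr h => by obtain ⟨_, w, _, h3⟩ := h; exact h3.right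

theorem Rch.succ {F : Finset V} : ∀ {n : ℕ} {u v : V}, Rch G F n u v → Rch G F (n + 1) u v
  | 0, _, _, h => Or.inl h
  | _ + 1, _, _, Or.inl h => Or.inl h
  | _ + 1, _, _, Or.inr h => by
    obtain ⟨h1, w, h2, h3⟩ := h
    exact Or.inr ⟨h1, w, h2, h3.succ⟩

theorem Rch.le {F : Finset V} {n m : ℕ} {u v : V} (h : Rch G F n u v) (hnm : n ≤ m) :
    Rch G F m u v := by
  induction hnm with
  | refl => exact h
  | step _ ih => exact ih.succ

theorem Rch.mono {F F' : Finset V} (hF : F ⊆ F') : ∀ {n : ℕ} {u v : V},
    Rch G F n u v → Rch G F' n u v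
  | 0, _, _, h => ⟨h.1, hF h.2⟩
  | _ + 1, _, _, Or.inl h => Or.inl ⟨h.1, hF h.2⟩
  | _ + 1, _, _, Or.inr h => by
    obtain ⟨h1, w, h2, h3⟩ := h
    exact Or.inr ⟨hF h1, w, h2, h3.mono hF⟩

theorem Rch.snoc {F : Finset V} : ∀ {n : ℕ} {u w v : V}, Rch G F n u w → G.Adj w v → v ∈ F →
    Rch G F (n + 1) u v
  | 0, u, w, v, h, hwv, hv => by
    obtain ⟨rfl, hu⟩ := h
    exact Rch.step hu hwv (Rch.refl hv 0)
  | n + 1, u, w, v, Or.inl h, hwv, hv => by
    obtain ⟨rfl, hu⟩ := h
    exact Rch.step hu hwv (Rch.refl hv _)
  | n + 1, u, w, v, Or.inr h, hwv, hv => by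
    obtain ⟨h1, z, h2, h3⟩ := h
    exact Rch.step h1 h2 (h3.snoc hwv hv)

theorem Rch.symm {F : Finset V} : ∀ {n : ℕ} {u v : V}, Rch G F n u v → Rch G F n v u
  | 0, _, _, h => ⟨h.1.symm, h.1 ▸ h.2⟩
  | _ + 1, _, _, Or.inl h => Or.inl ⟨h.1.symm, h.1 ▸ h.2⟩
  | _ + 1, _, _, Or.inr h => by
    obtain ⟨h1, w, h2, h3⟩ := h
    exact h3.symm.snoc h2.symm h1

theorem Rch.transport {F F' : Finset V} (g : V → V) (h1 : ∀ a ∈ F, g a ∈ F')
    (h2 : ∀ a ∈ F, ∀ b ∈ F, G.Adj a b → G.Adj (g a) (g b)) : ∀ {n : ℕ} {u v : V},
    Rch G F n u v → Rch G F' n (g u) (g v)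
  | 0, _, _, h => ⟨congrArg g h.1, h1 _ h.2⟩
  | _ + 1, _, _, Or.inl h => Or.inl ⟨congrArg g h.1, h1 _ h.2⟩
  | _ + 1, _, _, Or.inr h => by
    obtain ⟨h3, w, h4, h5⟩ := h
    exact Or.inr ⟨h1 _ h3, g w, h2 _ h3 _ h5.left h4, h5.transport g h1 h2⟩

/-- folding a vertex onto a dominating one -/
theorem Rch.fold [DecidableEq V] {F : Finset V} {x y : V} (hy : y ∈ F) (hyx : y ≠ x)
    (hd : ∀ z ∈ F, G.Adj x z → z = y ∨ G.Adj y z) : ∀ {n : ℕ} {u v : V},
    Rch G F n u v → Rch G (F.erase x) n (if u = x then y else u) (if v = x then y else v) := by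
  have hmem : ∀ u ∈ F, (if u = x then y else u) ∈ F.erase x := by
    intro u hu
    by_cases h : u = x
    · rw [if_pos h]; exact Finset.mem_erase.2 ⟨hyx, hy⟩
    · rw [if_neg h]; exact Finset.mem_erase.2 ⟨h, hu⟩
  intro n
  induction n with
  | zero =>
    intro u v h
    obtain ⟨rfl, hu⟩ := h
    exact Rch.refl (hmem u hu) 0
  | succ n ih =>
    intro u v h
    rcases h with h | h
    · obtain ⟨rfl, hu⟩ := h
      exact Rch.refl (hmem u hu) _
    · obtain ⟨hu, w, huw, hw⟩ := h
      have h1 := ih hw
      by_cases hux : u = x
      · subst hux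
        have hwx : w ≠ u := huw.ne'
        rw [if_neg hwx] at h1
        rw [if_pos rfl]
        rcases hd w hw.left huw with h2 | h2
        · rw [h2] at h1; exact h1.succ
        · exact Rch.step (Finset.mem_erase.2 ⟨hyx, hy⟩) h2 h1
      · rw [if_neg hux]
        by_cases hwx : w = x
        · subst hwx
          rw [if_pos rfl] at h1
          rcases hd u hu huw.symm with h2 | h2
          · rw [← h2] at h1
            have := h1.succ
            rwa [h2] at this ⊢
          · exact Rch.step (Finset.mem_erase.2 ⟨hux, hu⟩) h2.symm h1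
        · rw [if_neg hwx] at h1
          exact Rch.step (Finset.mem_erase.2 ⟨hux, hu⟩) huw h1

/-- every finite set with at least two elements contains a vertex of degree at most one or
a pair of twins -/
def Elim (G : SimpleGraph V) : Prop :=
  ∀ F : Finset V, 2 ≤ F.card → ∃ x ∈ F, (∃ y, ∀ z ∈ F, G.Adj x z → z = y) ∨
    (∃ y ∈ F, y ≠ x ∧ ∀ z ∈ F, z ≠ x → z ≠ y → (G.Adj x z ↔ G.Adj y z))

/-- changing the first vertex of a walk to a twin -/
theorem Rch.twin {F : Finset V} {a b v : V} (hb : b ∈ F)
    (ht : ∀ z ∈ F, z ≠ a → z ≠ b → (G.Adj a z ↔ G.Adj b z)) (hva : v ≠ a) {n : ℕ}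
    (h : Rch G F n a v) : Rch G F n b v := by
  cases n with
  | zero => exact absurd h.1.symm hva
  | succ n =>
    rcases h with h | ⟨_, w, haw, hw⟩
    · exact absurd h.1.symm hva
    · by_cases hwb : w = b
      · rw [hwb] at hw; exact hw.succ
      · exact Rch.step hb ((ht w hw.left haw.ne' hwb).1 haw) hw

theorem elim_core (hE : Elim G) : ∀ k, ∀ F : Finset V, F.card ≤ k → ∀ K ⊆ F,
    ∀ u v m, Rch G K m u v → ∀ n, Rch G F n u v → Rch G K n u v := by
  classical
  intro k
  induction k with
  | zero =>
    intro F hF K hK u v m hm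
    have := Finset.card_pos.2 ⟨u, hK hm.left⟩
    omega
  | succ k ih =>
    intro F hF K hK u v m hm n hn
    by_cases huv : u = v
    · rw [huv]; exact Rch.refl hm.right n
    have hu := hm.left
    have hv := hm.right
    have h2 : 2 ≤ F.card := by
      have : ({u, v} : Finset V) ⊆ F := by
        intro z hz
        simp only [Finset.mem_insert, Finset.mem_singleton] at hz
        rcases hz with rfl | rfl
        · exact hK hu
        · exact hK hv
      calc 2 = ({u, v} : Finset V).card := (Finset.card_pair huv).symm
        _ ≤ F.card := Finset.card_le_card this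
    obtain ⟨x, hxF, hx⟩ := hE F h2
    have hcard : (F.erase x).card ≤ k := by
      rw [Finset.card_erase_of_mem hxF]; omega
    -- erasing from `F`
    have hKF : ∀ {K' : Finset V}, K' ⊆ F → x ∉ K' → K' ⊆ F.erase x := fun h1 h2 z hz =>
      Finset.mem_erase.2 ⟨fun e => h2 (e ▸ hz), h1 hz⟩
    rcases hx with ⟨y, hy⟩ | ⟨y, hyF, hyx, htw⟩
    · -- degree at most one
      have avoid : ∀ {H : Finset V}, H ⊆ F → ∀ {n a b}, a ≠ x → b ≠ x →
          Rch G H n a b → Rch G (H.erase x) n a b := by
        intro H hH n a b ha hb hab
        by_cases hex : ∃ z ∈ H, G.Adj x z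
        · obtain ⟨z, hz, hxz⟩ := hex
          have := hab.fold hz hxz.ne' (fun w hw hxw =>
            Or.inl ((hy w (hH hw) hxw).trans (hy z (hH hz) hxz).symm))
          rwa [if_neg ha, if_neg hb] at this
        · push Not at hex
          have := hab.fold hab.left ha (fun w hw hxw => absurd hxw (hex w hw))
          rwa [if_neg ha, if_neg hb] at this
      have main : ∀ a b m n, a ≠ x → b ≠ x → Rch G K m a b → Rch G F n a b →
          Rch G K n a b := by
        intro a b m n ha hb h1 h3
        have h4 := ih (F.erase x) hcard (K.erase x)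
          (hKF ((Finset.erase_subset _ _).trans hK) (by simp)) a b m (avoid hK ha hb h1) n
          (avoid (Finset.Subset.refl _) ha hb h3)
        exact h4.mono (Finset.erase_subset _ _)
      have main2 : ∀ b m n, b ≠ x → Rch G K m x b → Rch G F n x b → Rch G K n x b := by
        intro b m n hb h1 h3
        cases m with
        | zero => exact absurd h1.1.symm hb
        | succ m =>
          rcases h1 with h1 | ⟨hxK, w, hxw, hw⟩
          · exact absurd h1.1.symm hb
          · cases n with
            | zero => exact absurd h3.1.symm hb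
            | succ n =>
              rcases h3 with h3 | ⟨_, w', hxw', hw'⟩
              · exact absurd h3.1.symm hb
              · have e : w' = w := (hy w' hw'.left hxw').trans (hy w (hK hw.left) hxw).symm
                rw [e] at hw'
                exact Rch.step hxK hxw (main w b m n hxw.ne' hb hw hw')
      by_cases hux : u = x
      · rw [hux] at hm hn huv ⊢
        exact main2 v m n (Ne.symm huv) hm hn
      · by_cases hvx : v = x
        · rw [hvx] at hm hn ⊢
          exact (main2 u m n hux hm.symm hn.symm).symm
        · exact main u v m n hux hvx hm hn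
    · -- twins
      have hdF : ∀ z ∈ F, G.Adj x z → z = y ∨ G.Adj y z := by
        intro z hz hxz
        by_cases hzy : z = y
        · exact Or.inl hzy
        · exact Or.inr ((htw z hz hxz.ne' hzy).1 hxz)
      have hfold := hn.fold hyF hyx hdF
      by_cases hxK : x ∈ K
      · by_cases hyK : y ∈ K
        · -- both twins in `K`
          have htwK : ∀ z ∈ K, z ≠ x → z ≠ y → (G.Adj x z ↔ G.Adj y z) := fun z hz =>
            htw z (hK hz)
          have main : ∀ a b m n, a ≠ x → b ≠ x → Rch G K m a b → Rch G F n a b →
              Rch G K n a b := by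
            intro a b m n ha hb h1 h3
            have h4 := h1.fold hyK hyx (fun z hz => hdF z (hK hz))
            have h5 := h3.fold hyF hyx hdF
            rw [if_neg ha, if_neg hb] at h4 h5
            have h6 := ih (F.erase x) hcard (K.erase x)
              (hKF ((Finset.erase_subset _ _).trans hK) (by simp)) a b m h4 n h5
            exact h6.mono (Finset.erase_subset _ _)
          have main2 : ∀ b m n, b ≠ x → Rch G K m x b → Rch G F n x b → Rch G K n x b := by
            intro b m n hb h1 h3
            by_cases hby : b = y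
            · subst hby
              by_cases hxy : G.Adj x b
              · cases n with
                | zero => exact absurd h3.1.symm hb
                | succ n => exact Rch.step hxK hxy (Rch.refl hyK n)
              · -- two steps
                have hw : ∃ w ∈ K, G.Adj x w := by
                  cases m with
                  | zero => exact absurd h1.1.symm hb
                  | succ m =>
                    rcases h1 with h1 | ⟨_, w, hxw, hw⟩
                    · exact absurd h1.1.symm hb
                    · exact ⟨w, hw.left, hxw⟩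
                obtain ⟨w, hwK, hxw⟩ := hw
                have hwb : w ≠ b := by rintro rfl; exact hxy hxw
                have hbw : G.Adj b w := (htwK w hwK hxw.ne' hwb).1 hxw
                have hn2 : 2 ≤ n := by
                  match n, h3 with
                  | 0, h3 => exact absurd h3.1.symm hb
                  | 1, h3 =>
                    rcases h3 with h3 | ⟨_, w', hxw', hw'⟩
                    · exact absurd h3.1.symm hb
                    · rw [hw'.1] at hxw'; exact absurd hxw' hxy
                  | n + 2, _ => omega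
                exact (Rch.step hxK hxw (Rch.step hwK hbw.symm (Rch.refl hyK 0))).le hn2
            · have h4 : Rch G K m y b := h1.twin hyK htwK hb
              have h5 : Rch G F n y b := h3.twin hyF htw hb
              have h6 := main y b m n hyx hb h4 h5
              exact h6.twin hxK (fun z hz h7 h8 => (htwK z hz h8 h7).symm) hby
          by_cases hux : u = x
          · rw [hux] at hm hn huv ⊢
            exact main2 v m n (Ne.symm huv) hm hn
          · by_cases hvx : v = x
            · rw [hvx] at hm hn ⊢
              exact (main2 u m n hux hm.symm hn.symm).symm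
            · exact main u v m n hux hvx hm hn
        · -- only `x` in `K`
          let ρ : V → V := fun z => if z = x then y else z
          let τ : V → V := fun z => if z = y then x else z
          have h1 : Rch G (insert y (K.erase x)) m (ρ u) (ρ v) := by
            refine hm.transport ρ ?_ ?_
            · intro a ha
              by_cases hax : a = x
              · simp [ρ, hax]
              · simp only [ρ, if_neg hax]
                exact Finset.mem_insert_of_mem (Finset.mem_erase.2 ⟨hax, ha⟩)
            · intro a ha b hb hab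
              have hay : a ≠ y := by rintro rfl; exact hyK ha
              have hby : b ≠ y := by rintro rfl; exact hyK hb
              by_cases hax : a = x
              · have hbx : b ≠ x := by rw [← hax]; exact hab.ne'
                simp only [ρ, if_pos hax, if_neg hbx]
                exact (htw b (hK hb) hbx hby).1 (hax ▸ hab)
              · by_cases hbx : b = x
                · simp only [ρ, if_neg hax, if_pos hbx]
                  exact ((htw a (hK ha) hax hay).1 (hbx ▸ hab.symm)).symm
                · simp only [ρ, if_neg hax, if_neg hbx]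
                  exact hab
          have hsub : insert y (K.erase x) ⊆ F.erase x := by
            intro z hz
            rw [Finset.mem_insert, Finset.mem_erase] at hz
            rcases hz with rfl | hz
            · exact Finset.mem_erase.2 ⟨hyx, hyF⟩
            · exact Finset.mem_erase.2 ⟨hz.1, hK hz.2⟩
          have h3 := ih (F.erase x) hcard _ hsub _ _ m h1 n hfold
          have h4 : Rch G K n (τ (ρ u)) (τ (ρ v)) := by
            refine h3.transport τ ?_ ?_
            · intro a ha
              rw [Finset.mem_insert, Finset.mem_erase] at ha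
              by_cases hay : a = y
              · simp only [τ, if_pos hay]; exact hxK
              · simp only [τ, if_neg hay]
                exact (ha.resolve_left hay).2
            · intro a ha b hb hab
              rw [Finset.mem_insert, Finset.mem_erase] at ha hb
              by_cases hay : a = y
              · have hby : b ≠ y := by rw [← hay]; exact hab.ne'
                have hb' := hb.resolve_left hby
                simp only [τ, if_pos hay, if_neg hby]
                exact (htw b (hK hb'.2) hb'.1 hby).2 (hay ▸ hab)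
              · have ha' := ha.resolve_left hay
                by_cases hby : b = y
                · simp only [τ, if_neg hay, if_pos hby]
                  exact ((htw a (hK ha'.2) ha'.1 hay).2 (hby ▸ hab.symm)).symm
                · simp only [τ, if_neg hay, if_neg hby]
                  exact hab
          have hτρ : ∀ a ∈ K, τ (ρ a) = a := by
            intro a ha
            have hay : a ≠ y := by rintro rfl; exact hyK ha
            by_cases hax : a = x
            · simp [ρ, τ, hax]
            · simp [ρ, τ, hax, hay]
          rwa [hτρ u hu, hτρ v hv] at h4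
      · have hux : u ≠ x := by rintro rfl; exact hxK hu
        have hvx : v ≠ x := by rintro rfl; exact hxK hv
        rw [if_neg hux, if_neg hvx] at hfold
        exact ih (F.erase x) hcard K (hKF hK hxK) u v m hm n hfold

theorem Rch.of_walk {F : Finset V} {u v : V} (p : G.Walk u v) (h : ∀ z ∈ p.support, z ∈ F) :
    Rch G F p.length u v := by
  induction p with
  | nil => exact Rch.refl (h _ (by simp)) _
  | cons huw q ih =>
    rw [Walk.length_cons]
    refine Rch.step (h _ (by simp)) huw (ih (fun z hz => h z ?_))
    rw [Walk.support_cons]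
    exact List.mem_cons_of_mem _ hz

theorem Rch.to_walk {F : Finset V} {s : Set V} (hF : ∀ z ∈ F, z ∈ s) :
    ∀ {n : ℕ} {u v : V} (hu : u ∈ s) (hv : v ∈ s), Rch G F n u v →
      ∃ p : (G.induce s).Walk ⟨u, hu⟩ ⟨v, hv⟩, p.length ≤ n
  | 0, u, v, hu, hv, h => by
    obtain ⟨rfl, _⟩ := h
    exact ⟨Walk.nil, le_rfl⟩
  | n + 1, u, v, hu, hv, Or.inl h => by
    obtain ⟨rfl, _⟩ := h
    exact ⟨Walk.nil, Nat.zero_le _⟩
  | n + 1, u, v, hu, hv, Or.inr h => by
    obtain ⟨h1, w, h2, h3⟩ := h
    obtain ⟨p, hp⟩ := Rch.to_walk hF (hF w h3.left) hv h3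
    have h4 : (G.induce s).Adj ⟨u, hu⟩ ⟨w, hF w h3.left⟩ := h2
    exact ⟨Walk.cons h4 p, by rw [Walk.length_cons]; omega⟩

/-- **Elimination orders give distance-hereditary graphs.** -/
theorem dh_of_elim (hE : Elim G) : DistHereditary G := by
  classical
  intro s hs u v
  apply le_antisymm
  · obtain ⟨p0, _⟩ := hs.exists_walk_length_eq_edist u v
    let p1 : G.Walk (u : V) (v : V) := p0.map (Embedding.induce s).toHom
    have hr : G.Reachable (u : V) (v : V) := ⟨p1⟩
    obtain ⟨q, hq⟩ := hr.exists_walk_length_eq_edist
    rw [← hq]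
    let F : Finset V := p1.support.toFinset ∪ q.support.toFinset
    let K : Finset V := p1.support.toFinset
    have hp1 : ∀ z ∈ p1.support, z ∈ s := by
      intro z hz
      have hz' : z ∈ (p0.map (Embedding.induce s).toHom).support := hz
      rw [Walk.support_map, List.mem_map] at hz'
      obtain ⟨w, _, rfl⟩ := hz'
      exact w.2
    have h1 : Rch G K p1.length u v := Rch.of_walk p1 (fun z hz => by simp [K, hz])
    have h2 : Rch G F q.length u v := Rch.of_walk q (fun z hz => by simp [F, hz])
    have h3 := elim_core hE _ F le_rfl K Finset.subset_union_left u v _ h1 _ h2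
    obtain ⟨p, hp⟩ := Rch.to_walk (s := s) (fun z hz => hp1 z (by simpa [K] using hz))
      u.2 v.2 h3
    refine (edist_le p).trans ?_
    exact_mod_cast hp
  · obtain ⟨p, hp⟩ := hs.exists_walk_length_eq_edist u v
    rw [← hp]
    have h3 := G.edist_le (p.map (Embedding.induce s).toHom)
    rw [Walk.length_map] at h3
    exact h3

end X249.DH
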