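import Pool.Agent.X249.DH.Config

/-!
# Codes of countable distance-hereditary graphs
-/

namespace X249.DH

open SimpleGraph Filter

variable {V : Type*} {G : SimpleGraph V}

theorem exists_rat [Countable V] (lt : V → V → Prop) (h1 : ∀ x, ¬ lt x x)
    (h2 : ∀ x y z, lt x y → lt y z → lt x z) (h3 : ∀ x y, x ≠ y → lt x y ∨ lt y x) :
    ∃ h : V → ℚ, ∀ x y, lt x y ↔ h x < h y := by
  classical
  have hst : IsStrictTotalOrder V lt :=
    { irrefl := h1
      trans := h2
      trichotomous := fun a b hab hba => by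
        by_contra hne
        rcases h3 a b hne with h | h
        · exact hab h
        · exact hba h }
  let _ := linearOrderOfSTO lt
  obtain ⟨e⟩ := Order.embedding_from_countable_to_dense V ℚ
  exact ⟨e, fun x y => (e.lt_iff_lt).symm⟩

theorem rule_congr_aux {lt lt' : V → V → Prop} {S C S' C' : V → Prop} {A B A' B' : Finset V}
    (I : Set V) (hA : ∀ x ∈ A, x ∈ I) (hB : ∀ x ∈ B, x ∈ I) (hA' : ∀ x ∈ A', x ∈ I)
    (hB' : ∀ x ∈ B', x ∈ I) (eA : ∀ x ∈ I, (x ∈ A ↔ x ∈ A')) (eB : ∀ x ∈ I, (x ∈ B ↔ x ∈ B'))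
    (eS : ∀ x ∈ I, (S x ↔ S' x)) (eC : ∀ x ∈ I, (C x ↔ C' x))
    (el : ∀ x ∈ I, ∀ y ∈ I, (lt x y ↔ lt' x y)) (h : Rule lt S C A B) :
    Rule lt' S' C' A' B' := by
  obtain ⟨q, ⟨h1, h2⟩, h3, h4⟩ := h
  have hq : q ∈ I := by
    by_contra hq
    exact h1 (iff_of_false (fun e => hq (hA q e)) (fun e => hq (hB q e)))
  refine ⟨q, ⟨?_, ?_⟩, ?_, ?_⟩
  · rw [← eA q hq, ← eB q hq]; exact h1
  · intro p hp
    by_cases hpI : p ∈ I
    · rw [← eA p hpI, ← eB p hpI]
      exact h2 p ((el p hpI q hq).2 hp)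
    · exact iff_of_false (fun e => hpI (hA' p e)) (fun e => hpI (hB' p e))
  · rw [← eS q hq]; exact h3
  · intro p hp hlt
    have hpI : p ∈ I := hp.elim (hA' p) (hB' p)
    rw [← eC p hpI]
    refine h4 p ?_ ((el q hq p hpI).2 hlt)
    rcases hp with hp | hp
    · exact Or.inl ((eA p hpI).2 hp)
    · exact Or.inr ((eB p hpI).2 hp)

theorem agree (U : Ultrafilter ℕ) (P : ℕ → Prop) :
    ∀ᶠ n in (U : Filter ℕ), (P n ↔ ∀ᶠ m in (U : Filter ℕ), P m) := by
  rcases U.em P with h | h
  · filter_upwards [h] with n hn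
    exact iff_of_true hn h
  · filter_upwards [h] with n hn
    refine iff_of_false hn (fun e => ?_)
    obtain ⟨m, h1, h2⟩ := (h.and e).exists
    exact h1 h2

/-- codes for all vertices of a countable connected distance-hereditary graph -/
theorem limit_config [Countable V] (hG : DistHereditary G) {idx : V → ℕ}
    (hidx : Function.Injective idx) (r : V)
    (hpar : ∀ y, y ≠ r → ∃ z, G.Adj y z ∧ idx z < idx y) :
    ∃ (f : V → Finset V) (h : V → ℚ) (S C : V → Prop), Function.Injective h ∧
      f r = ∅ ∧ (∀ y, y ≠ r → y ∈ f y) ∧ (∀ y, ∀ x ∈ f y, idx x ≤ idx y) ∧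
      (∀ y z, y ≠ z → (G.Adj y z ↔ Rule (fun a b => h a < h b) S C (f y) (f z))) := by
  classical
  have hfin : ∀ n, {y : V | idx y < n}.Finite := fun n =>
    Set.Finite.preimage hidx.injOn (Set.finite_lt_nat n)
  let F : ℕ → Finset V := fun n => (hfin (n + idx r + 1)).toFinset
  have hF : ∀ n y, y ∈ F n ↔ idx y < n + idx r + 1 := by intro n y; simp [F]
  have hgood : ∀ n, Good G idx r (F n) := by
    intro n
    refine ⟨(hF n r).2 (by omega), fun y hy hyr => ?_⟩
    obtain ⟨z, h1, h2⟩ := hpar y hyr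
    exact ⟨z, (hF n z).2 (by have := (hF n y).1 hy; omega), h1, h2⟩
  choose f h S C hconf using fun n => config_exists hG hidx r _ (F n) le_rfl (hgood n)
  let U : Ultrafilter ℕ := hyperfilter ℕ
  have hU : (U : Filter ℕ) ≤ atTop := by
    rw [← Nat.cofinite_eq_atTop]; exact hyperfilter_le_cofinite
  have hlarge : ∀ N, ∀ᶠ n in (U : Filter ℕ), N ≤ n := fun N => hU (eventually_ge_atTop N)
  have hmem : ∀ y, ∀ᶠ n in (U : Filter ℕ), y ∈ F n := fun y => by
    filter_upwards [hlarge (idx y)] with n hn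
    exact (hF n y).2 (by omega)
  have hfin' : ∀ y : V, {x : V | idx x ≤ idx y}.Finite := fun y =>
    Set.Finite.preimage hidx.injOn (Set.finite_le_nat _)
  let f0 : V → Finset V := fun y =>
    (hfin' y).toFinset.filter (fun x => ∀ᶠ n in (U : Filter ℕ), x ∈ f n y)
  have hf0 : ∀ y x, x ∈ f0 y ↔ ∀ᶠ n in (U : Filter ℕ), x ∈ f n y := by
    intro y x
    simp only [f0, Finset.mem_filter, Set.Finite.mem_toFinset, Set.mem_ofPred_eq,
      and_iff_right_iff_imp]
    intro hx
    obtain ⟨n, h1, h2⟩ := (hx.and (hmem y)).exists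
    exact ((hconf n).2.2.2.1 y h2 x h1).2
  let lt : V → V → Prop := fun x y => ∀ᶠ n in (U : Filter ℕ), h n x < h n y
  have hl1 : ∀ x, ¬ lt x x := by
    intro x hx
    obtain ⟨n, hn⟩ := hx.exists
    exact lt_irrefl _ hn
  have hl2 : ∀ x y z, lt x y → lt y z → lt x z := by
    intro x y z h1 h2
    filter_upwards [h1, h2] with n h3 h4
    exact h3.trans h4
  have hl3 : ∀ x y, x ≠ y → lt x y ∨ lt y x := by
    intro x y hxy
    rcases U.em (fun n => h n x < h n y) with h1 | h1
    · exact Or.inl h1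
    · right
      filter_upwards [h1, hmem x, hmem y] with n h2 h3 h4
      rcases lt_trichotomy (h n x) (h n y) with h5 | h5 | h5
      · exact absurd h5 h2
      · exact absurd ((hconf n).1 x h3 y h4 h5) hxy
      · exact h5
  obtain ⟨h0, hh0⟩ := exists_rat lt hl1 hl2 hl3
  let S0 : V → Prop := fun x => ∀ᶠ n in (U : Filter ℕ), S n x
  let C0 : V → Prop := fun x => ∀ᶠ n in (U : Filter ℕ), C n x
  refine ⟨f0, h0, S0, C0, ?_, ?_, ?_, ?_, ?_⟩
  · intro x y hxy
    by_contra hne
    rcases hl3 x y hne with h1 | h1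
    · have := (hh0 x y).1 h1; rw [hxy] at this; exact lt_irrefl _ this
    · have := (hh0 y x).1 h1; rw [hxy] at this; exact lt_irrefl _ this
  · ext x
    rw [hf0]
    simp only [Finset.notMem_empty, iff_false]
    intro hx
    obtain ⟨n, hn⟩ := hx.exists
    rw [(hconf n).2.1] at hn
    simp at hn
  · intro y hy
    rw [hf0]
    filter_upwards [hmem y] with n hn
    exact (hconf n).2.2.1 y hn hy
  · intro y x hx
    rw [hf0] at hx
    obtain ⟨n, h1, h2⟩ := (hx.and (hmem y)).exists
    exact ((hconf n).2.2.2.1 y h2 x h1).2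
  · intro y z hyz
    let I : Set V := {x | idx x ≤ max (idx y) (idx z)}
    have hI : I.Finite := Set.Finite.preimage hidx.injOn (Set.finite_le_nat _)
    have e1 : ∀ᶠ n in (U : Filter ℕ), ∀ x ∈ I, (x ∈ f n y ↔ x ∈ f0 y) := by
      rw [eventually_all_finite hI]
      intro x _
      filter_upwards [agree U (fun n => x ∈ f n y)] with n hn
      rw [hf0]; exact hn
    have e2 : ∀ᶠ n in (U : Filter ℕ), ∀ x ∈ I, (x ∈ f n z ↔ x ∈ f0 z) := by
      rw [eventually_all_finite hI]
      intro x _
      filter_upwards [agree U (fun n => x ∈ f n z)] with n hn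
      rw [hf0]; exact hn
    have e3 : ∀ᶠ n in (U : Filter ℕ), ∀ x ∈ I, (S n x ↔ S0 x) := by
      rw [eventually_all_finite hI]
      intro x _
      exact agree U (fun n => S n x)
    have e4 : ∀ᶠ n in (U : Filter ℕ), ∀ x ∈ I, (C n x ↔ C0 x) := by
      rw [eventually_all_finite hI]
      intro x _
      exact agree U (fun n => C n x)
    have e5 : ∀ᶠ n in (U : Filter ℕ), ∀ x ∈ I, ∀ w ∈ I, (h n x < h n w ↔ h0 x < h0 w) := by
      rw [eventually_all_finite hI]
      intro x _
      rw [eventually_all_finite hI]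
      intro w _
      filter_upwards [agree U (fun n => h n x < h n w)] with n hn
      rw [← hh0]; exact hn
    obtain ⟨n, ⟨⟨⟨⟨⟨⟨a1, a2⟩, a3⟩, a4⟩, a5⟩, a6⟩, a7⟩⟩ :=
      ((((((e1.and e2).and e3).and e4).and e5).and (hmem y)).and (hmem z)).exists
    have by1 : ∀ x ∈ f n y, x ∈ I := fun x hx =>
      le_trans ((hconf n).2.2.2.1 y a6 x hx).2 (le_max_left _ _)
    have bz1 : ∀ x ∈ f n z, x ∈ I := fun x hx =>
      le_trans ((hconf n).2.2.2.1 z a7 x hx).2 (le_max_right _ _)
    have hb : ∀ w, ∀ x ∈ f0 w, idx x ≤ idx w := by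
      intro w x hx
      have := (Finset.mem_filter.1 hx).1
      simpa using this
    have by2 : ∀ x ∈ f0 y, x ∈ I := fun x hx => le_trans (hb y x hx) (le_max_left _ _)
    have bz2 : ∀ x ∈ f0 z, x ∈ I := fun x hx => le_trans (hb z x hx) (le_max_right _ _)
    rw [(hconf n).2.2.2.2 y a6 z a7 hyz]
    constructor
    · exact rule_congr_aux I by1 bz1 by2 bz2 a1 a2 a3 a4 a5
    · exact rule_congr_aux I by2 bz2 by1 bz1 (fun x hx => (a1 x hx).symm)
        (fun x hx => (a2 x hx).symm) (fun x hx => (a3 x hx).symm)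
        (fun x hx => (a4 x hx).symm) (fun x hx w hw => (a5 x hx w hw).symm)

/-- an enumeration of a countable connected graph in which every vertex except the root
has an earlier neighbour -/
theorem exists_idx [Countable V] (hc : G.Connected) (r : V) :
    ∃ idx : V → ℕ, Function.Injective idx ∧
      ∀ y, y ≠ r → ∃ z, G.Adj y z ∧ idx z < idx y := by
  classical
  obtain ⟨e, he⟩ := Countable.exists_injective_nat V
  choose! par hpar using fun y (hy : y ≠ r) => lev_down hc r hy
  -- the code of a vertex: built from the codes of the vertices on a path to the root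
  have hex : ∀ n, ∃ g : V → ℕ, ∀ y, G.dist y r ≤ n →
      (y = r → g y = 0) ∧ (y ≠ r → g y = Nat.pair (g (par y)) (e y) + 1) := by
    intro n
    induction n with
    | zero =>
      refine ⟨fun _ => 0, fun y hy => ⟨fun _ => rfl, fun hyr => ?_⟩⟩
      exact absurd (lev_zero hc r (by omega)) hyr
    | succ n ih =>
      obtain ⟨g, hg⟩ := ih
      refine ⟨fun y => if y = r then 0 else if G.dist y r ≤ n then g y
        else Nat.pair (g (par y)) (e y) + 1, fun y hy => ⟨fun h => by simp [h], fun hyr => ?_⟩⟩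
      have h1 := (hpar y hyr).2
      have h2 : G.dist (par y) r ≤ n := by omega
      have h3 : (if par y = r then 0 else if G.dist (par y) r ≤ n then g (par y)
        else Nat.pair (g (par (par y))) (e (par y)) + 1) = g (par y) := by
        by_cases h4 : par y = r
        · rw [if_pos h4]; exact ((hg _ h2).1 h4).symm
        · rw [if_neg h4, if_pos h2]
      simp only [hyr, if_false]
      rw [h3]
      by_cases h5 : G.dist y r ≤ n
      · rw [if_pos h5]; exact (hg y h5).2 hyr
      · rw [if_neg h5]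
  choose g hg using hex
  have huniq : ∀ n m y, G.dist y r ≤ n → G.dist y r ≤ m → g n y = g m y := by
    intro n
    have : ∀ k m y, G.dist y r ≤ k → G.dist y r ≤ n → G.dist y r ≤ m → g n y = g m y := by
      intro k
      induction k with
      | zero =>
        intro m y h0 h1 h2
        have hy : y = r := lev_zero hc r (by omega)
        rw [((hg n y h1).1 hy), ((hg m y h2).1 hy)]
      | succ k ih =>
        intro m y h0 h1 h2
        by_cases hy : y = r
        · rw [((hg n y h1).1 hy), ((hg m y h2).1 hy)]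
        · have h3 := (hpar y hy).2
          rw [(hg n y h1).2 hy, (hg m y h2).2 hy,
            ih m (par y) (by omega) (by omega) (by omega)]
    intro m y h1 h2
    exact this _ m y h1 h1 h2
  let idx : V → ℕ := fun y => g (G.dist y r) y
  have h0 : idx r = 0 := (hg _ r le_rfl).1 rfl
  have h1 : ∀ y, y ≠ r → idx y = Nat.pair (idx (par y)) (e y) + 1 := by
    intro y hy
    have h3 := (hpar y hy).2
    show g (G.dist y r) y = _
    rw [(hg _ y le_rfl).2 hy, huniq (G.dist y r) (G.dist (par y) r) (par y) (by omega) le_rfl]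
  refine ⟨idx, ?_, ?_⟩
  · intro x y hxy
    by_cases hx : x = r <;> by_cases hy : y = r
    · rw [hx, hy]
    · rw [hx, h0, h1 y hy] at hxy; omega
    · rw [hy, h0, h1 x hx] at hxy; omega
    · rw [h1 x hx, h1 y hy] at hxy
      have := Nat.pair_eq_pair.1 (Nat.succ_injective hxy)
      exact he this.2
  · intro y hy
    refine ⟨par y, (hpar y hy).1, ?_⟩
    rw [h1 y hy]
    have := Nat.left_le_pair (idx (par y)) (e y)
    omega

end X249.DH
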