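import Pool.Agent.X249.DH.Universal

/-!
# A vertex-transitive countable distance-hereditary graph containing a given one
-/

namespace X249.DH

open SimpleGraph

/-- elimination of a vertex different from a root -/
theorem relim {W : Type*} {U : SimpleGraph W} (hU : DistHereditary U) (F : Finset W)
    (h2 : 2 ≤ F.card) (ρ : W) :
    ∃ x ∈ F, x ≠ ρ ∧ ((∃ y, ∀ z ∈ F, U.Adj x z → z = y) ∨
      (∃ y ∈ F, y ≠ ρ ∧ y ≠ x ∧ ∀ z ∈ F, z ≠ x → z ≠ y → (U.Adj x z ↔ U.Adj y z))) := by
  classical
  obtain ⟨x0, hx0, hx0ρ⟩ : ∃ x ∈ F, x ≠ ρ := by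
    by_contra hno
    push Not at hno
    have : F ⊆ {ρ} := fun x hx => Finset.mem_singleton.2 (hno x hx)
    have := Finset.card_le_card this
    simp at this
    omega
  let R : W → W → Prop := fun p q => q ∈ F ∧ U.Adj p q
  let C : Finset W := F.filter (fun w => Relation.ReflTransGen R x0 w)
  have hC : ∀ w, w ∈ C ↔ w ∈ F ∧ Relation.ReflTransGen R x0 w := by intro w; simp [C]
  have hx0C : x0 ∈ C := (hC x0).2 ⟨hx0, Relation.ReflTransGen.refl⟩
  have hclosed : ∀ p ∈ C, ∀ q ∈ F, U.Adj p q → q ∈ C := by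
    intro p hp q hq hpq
    exact (hC q).2 ⟨hq, ((hC p).1 hp).2.tail ⟨hq, hpq⟩⟩
  by_cases h3 : C.card ≤ 2
  · refine ⟨x0, hx0, hx0ρ, Or.inl ?_⟩
    by_cases hex : ∃ z ∈ F, U.Adj x0 z
    · obtain ⟨z0, hz0, hxz⟩ := hex
      refine ⟨z0, fun z hz hxz' => ?_⟩
      have h4 : {x0, z0} ⊆ C := by
        intro w hw
        simp only [Finset.mem_insert, Finset.mem_singleton] at hw
        rcases hw with rfl | rfl
        · exact hx0C
        · exact hclosed x0 hx0C _ hz0 hxz
      have h5 : ({x0, z0} : Finset W) = C :=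
        Finset.eq_of_subset_of_card_le h4 (by rw [Finset.card_pair hxz.ne]; exact h3)
      have h6 : z ∈ C := hclosed x0 hx0C z hz hxz'
      rw [← h5] at h6
      simp only [Finset.mem_insert, Finset.mem_singleton] at h6
      rcases h6 with rfl | rfl
      · exact absurd hxz' (U.loopless.irrefl _)
      · rfl
    · push Not at hex
      exact ⟨x0, fun z hz hxz => absurd hxz (hex z hz)⟩
  · push Not at h3
    let r : W := if ρ ∈ C then ρ else x0
    have hr : r ∈ C := by
      by_cases h : ρ ∈ C
      · simp only [r, if_pos h]; exact h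
      · simp only [r, if_neg h]; exact hx0C
    have hrρ : ∀ x ∈ C, x ≠ r → x ≠ ρ := by
      intro x hx hxr
      by_cases h : ρ ∈ C
      · simp only [r, if_pos h] at hxr; exact hxr
      · rintro rfl; exact h hx
    have hconn : (U.induce (C : Set W)).Connected := by
      have key : ∀ w, Relation.ReflTransGen R x0 w → ∃ hw : w ∈ (C : Set W),
          (U.induce (C : Set W)).Reachable ⟨x0, hx0C⟩ ⟨w, hw⟩ := by
        intro w hw
        induction hw with
        | refl => exact ⟨hx0C, Reachable.refl _⟩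
        | tail h1 h2 ih =>
          rename_i p q
          obtain ⟨hp, hreach⟩ := ih
          have hq : q ∈ (C : Set W) := hclosed p hp q h2.1 h2.2
          refine ⟨hq, hreach.trans ?_⟩
          have h4 : (U.induce (C : Set W)).Adj ⟨p, hp⟩ ⟨q, hq⟩ := h2.2
          exact h4.reachable
      have : Nonempty (C : Set W) := ⟨⟨x0, hx0C⟩⟩
      refine Connected.mk (fun a b => ?_)
      obtain ⟨ha, ha'⟩ := key a.1 ((hC a.1).1 a.2).2
      obtain ⟨hb, hb'⟩ := key b.1 ((hC b.1).1 b.2).2
      exact ha'.symm.trans hb'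
    have hDH : DistHereditary (U.induce (C : Set W)) := hU.comap (Embedding.induce _)
    have hcard : 3 ≤ Fintype.card (C : Set W) := by
      rw [show Fintype.card (C : Set W) = C.card from by simp]; omega
    rcases bm hconn hDH ⟨r, hr⟩ hcard with ⟨x, y, hxy, hxr, hyr, htw⟩ | ⟨x, y, hxr, hyr, hxy, hp⟩
    · have hxr' : (x : W) ≠ r := fun e => hxr (Subtype.ext e)
      have hyr' : (y : W) ≠ r := fun e => hyr (Subtype.ext e)
      refine ⟨x, ((hC x).1 x.2).1, hrρ x x.2 hxr', Or.inr ⟨y, ((hC y).1 y.2).1,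
        hrρ y y.2 hyr', fun e => hxy (Subtype.ext e.symm), ?_⟩⟩
      intro z hz hzx hzy
      by_cases hzC : z ∈ C
      · exact htw ⟨z, hzC⟩ (fun e => hzx (congrArg Subtype.val e))
          (fun e => hzy (congrArg Subtype.val e))
      · exact iff_of_false (fun e => hzC (hclosed x x.2 z hz e))
          (fun e => hzC (hclosed y y.2 z hz e))
    · have hxr' : (x : W) ≠ r := fun e => hxr (Subtype.ext e)
      refine ⟨x, ((hC x).1 x.2).1, hrρ x x.2 hxr', Or.inl ⟨y, fun z hz hxz => ?_⟩⟩
      have hzC : z ∈ C := hclosed x x.2 z hz hxz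
      exact congrArg Subtype.val (hp ⟨z, hzC⟩ hxz)

section Cayley

variable {W : Type*} (U : SimpleGraph W)

open FreeGroup

/-- The Cayley graph of the free group on the vertices of `U` whose connection set consists
of the elements `b * a⁻¹` with `a` and `b` adjacent in `U`. -/
def cay : SimpleGraph (FreeGroup W) where
  Adj g g' := ∃ a b, U.Adj a b ∧ g' = of b * ((of a)⁻¹ * g)
  symm := ⟨by
    rintro g g' ⟨a, b, hab, rfl⟩
    refine ⟨b, a, hab.symm, ?_⟩
    group⟩
  loopless := ⟨by
    rintro g ⟨a, b, hab, h⟩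
    have h1 : of b * (of a)⁻¹ = 1 := by
      have h2 : of b * (of a)⁻¹ * g = g := by rw [mul_assoc]; exact h.symm
      exact mul_eq_right.1 h2
    have h2 : of b = of a := by
      rw [mul_inv_eq_one] at h1; exact h1
    exact hab.ne (of_injective h2).symm⟩

/-- right multiplications are automorphisms -/
def cayIso (k : FreeGroup W) : cay U ≃g cay U where
  toEquiv := Equiv.mulRight k
  map_rel_iff' := by
    intro g g'
    show (∃ a b, U.Adj a b ∧ g' * k = of b * ((of a)⁻¹ * (g * k))) ↔
      (∃ a b, U.Adj a b ∧ g' = of b * ((of a)⁻¹ * g))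
    constructor
    · rintro ⟨a, b, hab, h⟩
      refine ⟨a, b, hab, ?_⟩
      have : g' * k = (of b * ((of a)⁻¹ * g)) * k := by rw [h]; group
      exact mul_right_cancel this
    · rintro ⟨a, b, hab, h⟩
      refine ⟨a, b, hab, ?_⟩
      rw [h]; group

theorem cay_transitive (x y : FreeGroup W) : ∃ φ : cay U ≃g cay U, φ x = y :=
  ⟨cayIso U (x⁻¹ * y), by show x * (x⁻¹ * y) = y; group⟩

variable [DecidableEq W]

theorem word_of_mul (b : W) (h : FreeGroup W) :
    (∃ t, toWord h = (b, false) :: t ∧ toWord (of b * h) = t) ∨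
    (toWord (of b * h) = (b, true) :: toWord h ∧ ∀ t, toWord h ≠ (b, false) :: t) := by
  have h1 : toWord (of b * h) = reduce ((b, true) :: toWord h) := by
    rw [toWord_mul, toWord_of]; rfl
  have h2 : reduce (toWord h) = toWord h := reduce_toWord h
  rw [h1, reduce.cons, h2]
  rcases hw : toWord h with _ | ⟨⟨c, e⟩, t⟩
  · right; simp
  · by_cases hc : b = c ∧ true = !e
    · left
      obtain ⟨rfl, he⟩ := hc
      have he' : e = false := by
        cases e
        · rfl
        · exact absurd he (by decide)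
      subst he'
      exact ⟨t, rfl, by simp⟩
    · right
      refine ⟨by dsimp only; rw [if_neg hc], ?_⟩
      intro t' ht'
      simp only [List.cons.injEq, Prod.mk.injEq] at ht'
      exact hc ⟨ht'.1.1.symm, by rw [ht'.1.2]; rfl⟩

theorem word_inv_mul (a : W) (g : FreeGroup W) :
    (∃ t, toWord g = (a, true) :: t ∧ toWord ((of a)⁻¹ * g) = t) ∨
    (toWord ((of a)⁻¹ * g) = (a, false) :: toWord g ∧ ∀ t, toWord g ≠ (a, true) :: t) := by
  have h1 : toWord ((of a)⁻¹ * g) = reduce ((a, false) :: toWord g) := by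
    rw [toWord_mul, toWord_inv, toWord_of]; rfl
  have h2 : reduce (toWord g) = toWord g := reduce_toWord g
  rw [h1, reduce.cons, h2]
  rcases hw : toWord g with _ | ⟨⟨c, e⟩, t⟩
  · right; simp
  · by_cases hc : a = c ∧ false = !e
    · left
      obtain ⟨rfl, he⟩ := hc
      have he' : e = true := by
        cases e
        · exact absurd he (by decide)
        · rfl
      subst he'
      exact ⟨t, rfl, by simp⟩
    · right
      refine ⟨by dsimp only; rw [if_neg hc], ?_⟩
      intro t' ht'
      simp only [List.cons.injEq, Prod.mk.injEq] at ht'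
      exact hc ⟨ht'.1.1.symm, by rw [ht'.1.2]; rfl⟩

variable {U}

theorem cay_elim (hU : DistHereditary U) : Elim (cay U) := by
  intro F hF2
  have hFn : F.Nonempty := Finset.card_pos.1 (by omega)
  obtain ⟨g, hg, hmax⟩ := Finset.exists_max_image F (fun x => (toWord x).length) hFn
  -- elements of maximal length have neighbours only in one block
  have claim : ∀ x ∈ F, (∀ z ∈ F, (toWord z).length ≤ (toWord x).length) →
      ∀ a b, a ≠ b → of b * ((of a)⁻¹ * x) ∈ F → ∃ t, toWord x = (a, true) :: t ∧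
        toWord ((of a)⁻¹ * x) = t := by
    intro x _ hxmax a b hab hz
    rcases word_inv_mul a x with h | ⟨h1, _⟩
    · exact h
    · exfalso
      rcases word_of_mul b ((of a)⁻¹ * x) with ⟨t, h2, _⟩ | ⟨h2, _⟩
      · rw [h1] at h2
        simp only [List.cons.injEq, Prod.mk.injEq] at h2
        exact hab h2.1.1
      · have := hxmax _ hz
        rw [h2, h1] at this
        simp only [List.length_cons] at this
        omega
  by_cases hex : ∃ z ∈ F, (cay U).Adj g z
  swap
  · push Not at hex
    exact ⟨g, hg, Or.inl ⟨g, fun z hz h => absurd h (hex z hz)⟩⟩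
  obtain ⟨z1, hz1, a0, b1, hab1, rfl⟩ := hex
  obtain ⟨t0, hgw, hhw⟩ := claim g hg hmax a0 b1 hab1.ne hz1
  set h0 : FreeGroup W := (of a0)⁻¹ * g with hh0
  have hgh : g = of a0 * h0 := by rw [hh0]; group
  have hinj : Function.Injective (fun b : W => of b * h0) := by
    intro b b' hbb
    exact of_injective (mul_right_cancel hbb)
  let M : Finset W := F.preimage (fun b => of b * h0) hinj.injOn
  have hM : ∀ b, b ∈ M ↔ of b * h0 ∈ F := by intro b; simp [M]
  have hM2 : 2 ≤ M.card := by
    have : ({a0, b1} : Finset W) ⊆ M := by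
      intro w hw
      simp only [Finset.mem_insert, Finset.mem_singleton] at hw
      rcases hw with rfl | rfl
      · rw [hM, ← hgh]; exact hg
      · rw [hM]; exact hz1
    calc 2 = ({a0, b1} : Finset W).card := (Finset.card_pair hab1.ne).symm
      _ ≤ M.card := Finset.card_le_card this
  obtain ⟨ρ, hρ⟩ : ∃ ρ : W, ∀ b t, b ≠ ρ → t0 ≠ (b, false) :: t := by
    rcases t0 with _ | ⟨⟨c, e⟩, t⟩
    · exact ⟨a0, fun b t _ h => by simp at h⟩
    · refine ⟨c, fun b t' hb h => ?_⟩
      simp only [List.cons.injEq, Prod.mk.injEq] at h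
      exact hb h.1.1.symm
  -- words of the elements of the block
  have hword : ∀ b, b ≠ ρ → toWord (of b * h0) = (b, true) :: t0 := by
    intro b hb
    rcases word_of_mul b h0 with ⟨t, h1, _⟩ | ⟨h1, _⟩
    · rw [hhw] at h1; exact absurd h1 (hρ b t hb)
    · rw [h1, hhw]
  -- the neighbours of the elements of the block
  have hnb : ∀ b, b ≠ ρ → b ∈ M → ∀ z ∈ F, (cay U).Adj (of b * h0) z →
      ∃ b', b' ∈ M ∧ U.Adj b b' ∧ z = of b' * h0 := by
    intro b hb hbM z hz hadj
    obtain ⟨a2, b2, hab2, rfl⟩ := hadj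
    have hxmax : ∀ z ∈ F, (toWord z).length ≤ (toWord (of b * h0)).length := by
      intro z hz
      have h1 := hmax z hz
      rw [hword b hb]
      rw [hgw] at h1
      simpa using h1
    obtain ⟨t, h1, _⟩ := claim (of b * h0) ((hM b).1 hbM) hxmax a2 b2 hab2.ne hz
    rw [hword b hb] at h1
    simp only [List.cons.injEq, Prod.mk.injEq] at h1
    obtain ⟨⟨rfl, _⟩, _⟩ := h1
    have e : (of b)⁻¹ * (of b * h0) = h0 := by group
    rw [e] at hz ⊢
    exact ⟨b2, (hM b2).2 hz, hab2, rfl⟩
  have hadj' : ∀ b b', U.Adj b b' → (cay U).Adj (of b * h0) (of b' * h0) := by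
    intro b b' h
    exact ⟨b, b', h, by group⟩
  obtain ⟨x, hxM, hxρ, hx⟩ := relim hU M hM2 ρ
  refine ⟨of x * h0, (hM x).1 hxM, ?_⟩
  rcases hx with ⟨y, hy⟩ | ⟨y, hyM, hyρ, hyx, htw⟩
  · left
    refine ⟨of y * h0, fun z hz hxz => ?_⟩
    obtain ⟨b', hb', hadj, rfl⟩ := hnb x hxρ hxM z hz hxz
    rw [hy b' hb' hadj]
  · right
    refine ⟨of y * h0, (hM y).1 hyM, fun e => hyx (hinj e), fun z hz hzx hzy => ?_⟩
    constructor
    · intro hxz
      obtain ⟨b', hb', hadj, rfl⟩ := hnb x hxρ hxM z hz hxz
      have h1 : b' ≠ x := fun e => hzx (by rw [e])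
      have h2 : b' ≠ y := fun e => hzy (by rw [e])
      exact hadj' y b' ((htw b' hb' h1 h2).1 hadj)
    · intro hyz
      obtain ⟨b', hb', hadj, rfl⟩ := hnb y hyρ hyM z hz hyz
      have h1 : b' ≠ x := fun e => hzx (by rw [e])
      have h2 : b' ≠ y := fun e => hzy (by rw [e])
      exact hadj' x b' ((htw b' hb' h1 h2).2 hadj)

/-- the embedding of `U` into its Cayley graph -/
def cayEmb (U : SimpleGraph W) : U ↪g cay U where
  toFun := of
  inj' := of_injective
  map_rel_iff' := by
    intro b b'
    show (∃ a a', U.Adj a a' ∧ of b' = of a' * ((of a)⁻¹ * of b)) ↔ U.Adj b b'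
    constructor
    · rintro ⟨a, a', haa, h⟩
      by_cases hab : a = b
      · subst hab
        have : of b' = of a' := by rw [h]; group
        rw [of_injective this]; exact haa
      · exfalso
        have h1 : toWord ((of a)⁻¹ * of b) = [(a, false), (b, true)] := by
          rcases word_inv_mul a (of b) with ⟨t, h2, _⟩ | ⟨h2, _⟩
          · rw [toWord_of] at h2
            simp only [List.cons.injEq, Prod.mk.injEq] at h2
            exact absurd h2.1.1.symm hab
          · rw [h2, toWord_of]
        rcases word_of_mul a' ((of a)⁻¹ * of b) with ⟨t, h2, _⟩ | ⟨h2, _⟩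
        · rw [h1] at h2
          simp only [List.cons.injEq, Prod.mk.injEq] at h2
          exact haa.ne h2.1.1
        · rw [← h, h1, toWord_of] at h2
          simp at h2
    · intro h
      exact ⟨b, b', h, by group⟩

end Cayley

/-- **A vertex-transitive strongly universal countable distance-hereditary graph.** -/
theorem transitive_universal : ∃ (W : Type) (_ : Countable W) (U : SimpleGraph W),
    DistHereditary U ∧ (∀ x y : W, ∃ φ : U ≃g U, φ x = y) ∧
      ∀ (V : Type) [Countable V] (G : SimpleGraph V), DistHereditary G →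
        Nonempty (G ↪g U) := by
  classical
  obtain ⟨W, hW, U, hU, huniv⟩ := strongly_universal
  have : Countable (FreeGroup W) := FreeGroup.toWord_injective.countable
  refine ⟨FreeGroup W, this, cay U, dh_of_elim (cay_elim hU), cay_transitive U, ?_⟩
  intro V _ G hG
  obtain ⟨e⟩ := huniv V G hG
  exact ⟨(cayEmb U).comp e⟩

end X249.DH
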