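import Pool.Agent.X249.DH.Basic

/-!
# Twins and pendant vertices in finite distance-hereditary graphs
-/

namespace X249.DH

open SimpleGraph

variable {V : Type*} {G : SimpleGraph V}

/-- no induced path on four vertices inside `A` -/
def P4free (G : SimpleGraph V) (A : Finset V) : Prop :=
  ∀ p ∈ A, ∀ q ∈ A, ∀ r ∈ A, ∀ t ∈ A, G.Adj p q → G.Adj q r → G.Adj r t →
    ¬ G.Adj p r → ¬ G.Adj q t → ¬ G.Adj p t → False

theorem P4free.mono {A B : Finset V} (h : P4free G B) (hAB : A ⊆ B) : P4free G A :=
  fun p hp q hq r hr t ht => h p (hAB hp) q (hAB hq) r (hAB hr) t (hAB ht)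

theorem P4free.compl {A : Finset V} (h : P4free G A) : P4free Gᶜ A := by
  intro p hp q hq r hr t ht hpq hqr hrt hpr hqt hpt
  rw [compl_adj] at hpq hqr hrt hpr hqt hpt
  have npr : p ≠ r := by rintro rfl; exact hpt hrt
  have nqt : q ≠ t := by rintro rfl; exact hpt hpq
  have npt : p ≠ t := by rintro rfl; exact hqt ⟨hpq.1.symm, fun h => hpq.2 h.symm⟩
  have apr : G.Adj p r := by by_contra h; exact hpr ⟨npr, h⟩
  have aqt : G.Adj q t := by by_contra h; exact hqt ⟨nqt, h⟩
  have apt : G.Adj p t := by by_contra h; exact hpt ⟨npt, h⟩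
  exact h r hr p hp t ht q hq apr.symm apt aqt.symm hrt.2 hpq.2
    (fun h => hqr.2 h.symm)

/-- a partition into two completely joined or completely unjoined parts -/
def Split (G : SimpleGraph V) (A X Y : Finset V) : Prop :=
  X.Nonempty ∧ Y.Nonempty ∧ (∀ z, z ∈ A ↔ z ∈ X ∨ z ∈ Y) ∧ (∀ z ∈ X, z ∉ Y) ∧
    ((∀ x ∈ X, ∀ y ∈ Y, G.Adj x y) ∨ (∀ x ∈ X, ∀ y ∈ Y, ¬ G.Adj x y))

theorem split_step [DecidableEq V] {A X Y : Finset V} {v : V} (hv : v ∉ A)
    (hX : X.Nonempty) (hY : Y.Nonempty) (hA : ∀ z, z ∈ A ↔ z ∈ X ∨ z ∈ Y)
    (hd : ∀ z ∈ X, z ∉ Y) (hn : ∀ x ∈ X, ∀ y ∈ Y, ¬ G.Adj x y)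
    (hP : P4free G (insert v A)) : ∃ X' Y', Split G (insert v A) X' Y' := by
  classical
  by_cases hall : ∀ a ∈ A, G.Adj v a
  · refine ⟨{v}, A, by simp, ?_, ?_, ?_, Or.inl ?_⟩
    · obtain ⟨x, hx⟩ := hX
      exact ⟨x, (hA x).2 (Or.inl hx)⟩
    · intro z; simp
    · intro z hz; rw [Finset.mem_singleton] at hz; rw [hz]; exact hv
    · intro x hx y hy; rw [Finset.mem_singleton] at hx; rw [hx]; exact hall y hy
  push Not at hall
  obtain ⟨u, huA, hvu⟩ := hall
  -- by symmetry assume `u ∈ X`
  wlog huX : u ∈ X generalizing X Y with H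
  · have huY : u ∈ Y := ((hA u).1 huA).resolve_left huX
    exact H hY hX (fun z => (hA z).trans or_comm) (fun z hz hz' => hd z hz' hz)
      (fun x hx y hy h => hn y hy x hx h.symm) huY
  by_cases hy : ∃ y ∈ Y, G.Adj v y
  · obtain ⟨y, hyY, hvy⟩ := hy
    let R : V → V → Prop := fun p q => q ∈ A ∧ G.Adj p q
    let K := A.filter (fun w => Relation.ReflTransGen R u w)
    have key : ∀ w, Relation.ReflTransGen R u w → w ∈ X ∧ ¬ G.Adj v w := by
      intro w hw
      induction hw with
      | refl => exact ⟨huX, hvu⟩
      | tail h1 h2 ih =>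
        rename_i q p
        obtain ⟨hqX, hvq⟩ := ih
        obtain ⟨hpA, hqp⟩ := h2
        have hpX : p ∈ X := by
          rcases (hA p).1 hpA with h | h
          · exact h
          · exact absurd hqp (hn q hqX p h)
        refine ⟨hpX, fun hvp => ?_⟩
        refine hP q ?_ p ?_ v ?_ y ?_ hqp hvp.symm hvy (fun h => hvq h.symm)
          (hn p hpX y hyY) (hn q hqX y hyY)
        · exact Finset.mem_insert_of_mem ((hA q).2 (Or.inl hqX))
        · exact Finset.mem_insert_of_mem hpA
        · exact Finset.mem_insert_self _ _
        · exact Finset.mem_insert_of_mem ((hA y).2 (Or.inr hyY))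
    have hKA : ∀ w, w ∈ K ↔ w ∈ A ∧ Relation.ReflTransGen R u w := by
      intro w; simp [K]
    refine ⟨K, insert v (A \ K), ?_, ?_, ?_, ?_, Or.inr ?_⟩
    · exact ⟨u, (hKA u).2 ⟨huA, Relation.ReflTransGen.refl⟩⟩
    · exact ⟨v, by simp⟩
    · intro z
      simp only [Finset.mem_insert, Finset.mem_sdiff]
      constructor
      · rintro (h | h)
        · exact Or.inr (Or.inl h)
        · by_cases hz : z ∈ K
          · exact Or.inl hz
          · exact Or.inr (Or.inr ⟨h, hz⟩)
      · rintro (h | h | h)
        · exact Or.inr ((hKA z).1 h).1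
        · exact Or.inl h
        · exact Or.inr h.1
    · intro z hz
      simp only [Finset.mem_insert, Finset.mem_sdiff]
      rintro (h | h)
      · exact hv (h ▸ ((hKA z).1 hz).1)
      · exact h.2 hz
    · intro x hx w hw hxw
      simp only [Finset.mem_insert, Finset.mem_sdiff] at hw
      obtain ⟨hxA, hxR⟩ := (hKA x).1 hx
      rcases hw with h | h
      · rw [h] at hxw; exact (key x hxR).2 hxw.symm
      · exact h.2 ((hKA w).2 ⟨h.1, hxR.tail ⟨h.1, hxw⟩⟩)
  · push Not at hy
    refine ⟨Y, insert v X, hY, ⟨v, by simp⟩, ?_, ?_, Or.inr ?_⟩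
    · intro z
      simp only [Finset.mem_insert]
      rw [hA z]
      tauto
    · intro z hz
      simp only [Finset.mem_insert]
      rintro (h | h)
      · exact hv (h ▸ (hA z).2 (Or.inr hz))
      · exact hd z h hz
    · intro x hx w hw hxw
      simp only [Finset.mem_insert] at hw
      rcases hw with h | h
      · rw [h] at hxw; exact hy x hx hxw.symm
      · exact hn w h x hx hxw.symm

theorem seinsche [DecidableEq V] (A : Finset V) (h2 : 2 ≤ A.card) (hP : P4free G A) :
    ∃ X Y, Split G A X Y := by
  classical
  induction A using Finset.induction_on with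
  | empty => simp at h2
  | insert v A hv ih =>
    by_cases hA : 2 ≤ A.card
    · obtain ⟨X, Y, hX, hY, hXY, hd, hn | hn⟩ :=
        ih hA (hP.mono (Finset.subset_insert _ _))
      · -- complement
        obtain ⟨X', Y', hX', hY', hXY', hd', hn'⟩ := split_step (G := Gᶜ) hv hX hY hXY hd
          (fun x hx y hy h => by rw [compl_adj] at h; exact h.2 (hn x hx y hy)) hP.compl
        refine ⟨X', Y', hX', hY', hXY', hd', ?_⟩
        rcases hn' with h | h
        · right
          intro x hx y hy hxy
          have := h x hx y hy
          rw [compl_adj] at this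
          exact this.2 hxy
        · left
          intro x hx y hy
          have := h x hx y hy
          rw [compl_adj] at this
          by_contra hxy
          refine this ⟨?_, hxy⟩
          rintro rfl
          exact hd' x hx hy
      · exact split_step hv hX hY hXY hd hn (hP)
    · have hcard : A.card = 1 := by
        rw [Finset.card_insert_of_notMem hv] at h2
        omega
      obtain ⟨a, rfl⟩ := Finset.card_eq_one.1 hcard
      have hva : v ≠ a := by simpa using hv
      refine ⟨{v}, {a}, by simp, by simp, by simp, ?_, ?_⟩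
      · intro z hz; simp at hz ⊢; rw [hz]; exact hva
      · by_cases h : G.Adj v a
        · left; intro x hx y hy; simp at hx hy; rw [hx, hy]; exact h
        · right; intro x hx y hy; simp at hx hy; rw [hx, hy]; exact h

/-- a finite set without induced path on four vertices contains a pair of twins -/
theorem cograph_twins (A : Finset V) (h2 : 2 ≤ A.card) (hP : P4free G A) :
    ∃ x ∈ A, ∃ y ∈ A, x ≠ y ∧ ∀ z ∈ A, z ≠ x → z ≠ y → (G.Adj x z ↔ G.Adj y z) := by
  classical
  have key : ∀ n, ∀ A : Finset V, A.card ≤ n → 2 ≤ A.card → P4free G A →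
      ∃ x ∈ A, ∃ y ∈ A, x ≠ y ∧ ∀ z ∈ A, z ≠ x → z ≠ y → (G.Adj x z ↔ G.Adj y z) := by
    intro n
    induction n with
    | zero => intro A h0 h2; omega
    | succ n ih =>
      intro A hn h2 hP
      obtain ⟨X, Y, hX, hY, hXY, hd, hj⟩ := seinsche A h2 hP
      have hAe : A = X ∪ Y := by ext z; rw [hXY z, Finset.mem_union]
      have hdis : Disjoint X Y := Finset.disjoint_left.2 hd
      have hcard : A.card = X.card + Y.card := by
        rw [hAe, Finset.card_union_of_disjoint hdis]
      have hX1 := hX.card_pos
      have hY1 := hY.card_pos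
      by_cases hX2 : 2 ≤ X.card
      · obtain ⟨x, hx, y, hy, hne, htw⟩ := ih X (by omega) hX2
          (hP.mono (by rw [hAe]; exact Finset.subset_union_left))
        refine ⟨x, (hXY x).2 (Or.inl hx), y, (hXY y).2 (Or.inl hy), hne, ?_⟩
        intro z hz hzx hzy
        rcases (hXY z).1 hz with h | h
        · exact htw z h hzx hzy
        · rcases hj with hj | hj
          · exact iff_of_true (hj x hx z h) (hj y hy z h)
          · exact iff_of_false (hj x hx z h) (hj y hy z h)
      · by_cases hY2 : 2 ≤ Y.card
        · obtain ⟨x, hx, y, hy, hne, htw⟩ := ih Y (by omega) hY2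
            (hP.mono (by rw [hAe]; exact Finset.subset_union_right))
          refine ⟨x, (hXY x).2 (Or.inr hx), y, (hXY y).2 (Or.inr hy), hne, ?_⟩
          intro z hz hzx hzy
          rcases (hXY z).1 hz with h | h
          · rcases hj with hj | hj
            · exact iff_of_true (hj z h x hx).symm (hj z h y hy).symm
            · exact iff_of_false (fun e => hj z h x hx e.symm) (fun e => hj z h y hy e.symm)
          · exact htw z h hzx hzy
        · obtain ⟨x, hx⟩ := Finset.card_eq_one.1 (show X.card = 1 by omega)
          obtain ⟨y, hy⟩ := Finset.card_eq_one.1 (show Y.card = 1 by omega)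
          have hxX : x ∈ X := by rw [hx]; simp
          have hyY : y ∈ Y := by rw [hy]; simp
          refine ⟨x, (hXY x).2 (Or.inl hxX), y, (hXY y).2 (Or.inr hyY), ?_, ?_⟩
          · rintro rfl; exact hd x hxX hyY
          · intro z hz hzx hzy
            rcases (hXY z).1 hz with h | h
            · rw [hx, Finset.mem_singleton] at h; exact absurd h hzx
            · rw [hy, Finset.mem_singleton] at h; exact absurd h hzy
  exact key _ A le_rfl h2 hP

/-- **Bandelt and Mulder.** A finite connected distance-hereditary graph with at least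
three vertices has twins or a pendant vertex together with its neighbour, all different
from a given root. -/
theorem bm [Fintype V] (hc : G.Connected) (hG : DistHereditary G) (r : V)
    (h3 : 3 ≤ Fintype.card V) :
    (∃ x y, x ≠ y ∧ x ≠ r ∧ y ≠ r ∧ ∀ z, z ≠ x → z ≠ y → (G.Adj x z ↔ G.Adj y z)) ∨
    (∃ x y, x ≠ r ∧ y ≠ r ∧ G.Adj x y ∧ ∀ z, G.Adj x z → z = y) := by
  classical
  have : Nonempty V := ⟨r⟩
  obtain ⟨x0, hx0⟩ := Finite.exists_max (fun x => G.dist x r)
  set k := G.dist x0 r with hk
  have hrr : G.dist r r = 0 := G.dist_self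
  have hk1 : 1 ≤ k := by
    by_contra h
    have hall : ∀ x, x = r := fun x => lev_zero hc r (by have := hx0 x; omega)
    have : Fintype.card V ≤ 1 := Fintype.card_le_one_iff.2 (fun a b => by
      rw [hall a, hall b])
    omega
  have hlr : ∀ {a : V}, 1 ≤ G.dist a r → a ≠ r := by
    rintro a h rfl; omega
  by_cases hA : ∃ x x', G.dist x r = k ∧ G.dist x' r = k ∧ G.Adj x x'
  · -- Case A: an edge in the last level
    obtain ⟨x, x', hx, hx', hxx⟩ := hA
    left
    let R : V → V → Prop := fun p q => G.dist q r = k ∧ G.Adj p q
    let C : Finset V := Finset.univ.filter (fun w => Relation.ReflTransGen R x w)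
    have hC : ∀ w, w ∈ C ↔ Relation.ReflTransGen R x w := by intro w; simp [C]
    have key : ∀ w, Relation.ReflTransGen R x w → G.dist w r = k ∧
        ∀ z, G.dist z r + 1 = k → (G.Adj w z ↔ G.Adj x z) := by
      intro w hw
      induction hw with
      | refl => exact ⟨hx, fun z _ => Iff.rfl⟩
      | tail h1 h2 ih =>
        rename_i q p
        obtain ⟨hq, hqz⟩ := ih
        obtain ⟨hp, hqp⟩ := h2
        refine ⟨hp, fun z hz => ?_⟩
        rw [← hqz z hz]
        exact ⟨fun h => F1 hc r hG hqp.symm (by omega) (by omega) h,
          fun h => F1 hc r hG hqp (by omega) (by omega) h⟩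
    obtain ⟨a, hxa, hal⟩ := lev_down hc r (hlr (a := x) (by omega))
    have hCa : ∀ w ∈ C, G.Adj a w := fun w hw =>
      (((key w ((hC w).1 hw)).2 a (by omega)).2 hxa).symm
    have hxC : x ∈ C := (hC x).2 Relation.ReflTransGen.refl
    have hxC' : x' ∈ C := (hC x').2 (Relation.ReflTransGen.single ⟨hx', hxx⟩)
    have hC2 : 2 ≤ C.card := by
      have : ({x, x'} : Finset V) ⊆ C := by
        intro z hz
        simp only [Finset.mem_insert, Finset.mem_singleton] at hz
        rcases hz with rfl | rfl
        · exact hxC
        · exact hxC'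
      calc 2 = ({x, x'} : Finset V).card := (Finset.card_pair hxx.ne).symm
        _ ≤ C.card := Finset.card_le_card this
    have hP : P4free G C := by
      intro p hp q hq s hs t ht h1 h2 h3 h4 h5 h6
      exact nbhd_P4 hG (hCa p hp) (hCa t ht) h1 h2 h3 h4 h5 h6
    obtain ⟨u, hu, v, hv, huv, htw⟩ := cograph_twins C hC2 hP
    have hul := key u ((hC u).1 hu)
    have hvl := key v ((hC v).1 hv)
    refine ⟨u, v, huv, hlr (by omega), hlr (by omega), ?_⟩
    intro z hzu hzv
    by_cases hzC : z ∈ C
    · exact htw z hzC hzu hzv
    · have hclosed : ∀ w ∈ C, G.dist z r = k → ¬ G.Adj w z := by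
        intro w hw hz h
        exact hzC ((hC z).2 (((hC w).1 hw).tail ⟨hz, h⟩))
      rcases lt_trichotomy (G.dist z r + 1) k with h | h | h
      · refine iff_of_false (fun e => ?_) (fun e => ?_)
        · have := lev_adj hc r e; omega
        · have := lev_adj hc r e; omega
      · rw [hul.2 z h, hvl.2 z h]
      · have hz : G.dist z r = k := by have := hx0 z; omega
        exact iff_of_false (hclosed u hu hz) (hclosed v hv hz)
  · -- Case B: the last level is independent
    push Not at hA
    let N : V → Finset V := fun x => Finset.univ.filter (fun z => G.Adj x z)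
    have hN : ∀ x z, z ∈ N x ↔ G.Adj x z := by intro x z; simp [N]
    obtain ⟨x, hxL, hmin⟩ := Finset.exists_min_image
      (Finset.univ.filter (fun x => G.dist x r = k)) (fun x => (N x).card)
      ⟨x0, by simp [hk]⟩
    have hx : G.dist x r = k := by simpa using hxL
    have hmin' : ∀ y, G.dist y r = k → (N x).card ≤ (N y).card := fun y hy =>
      hmin y (by simp [hy])
    have hdown : ∀ y z, G.dist y r = k → G.Adj y z → G.dist z r + 1 = k := by
      intro y z hy hyz
      have h1 := lev_adj hc r hyz
      have h2 := hx0 z
      have h4 : G.dist z r ≠ k := fun h => hA y z hy h hyz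
      omega
    obtain ⟨a, hxa, hal⟩ := lev_down hc r (hlr (a := x) (by omega))
    by_cases hcard : (N x).card ≤ 1
    · have huniq : ∀ z, G.Adj x z → z = a := by
        intro z hz
        exact Finset.card_le_one.1 hcard z ((hN x z).2 hz) a ((hN x a).2 hxa)
      by_cases har : a = r
      · -- a star
        left
        have hk' : k = 1 := by rw [har] at hal; omega
        have hL : ∀ z, z ≠ r → G.dist z r = 1 := by
          intro z hz
          have h1 := hx0 z
          have h2 : G.dist z r ≠ 0 := fun h => hz (lev_zero hc r h)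
          omega
        obtain ⟨y, hy1, hy2⟩ : ∃ y, y ≠ r ∧ y ≠ x := by
          by_contra h
          push Not at h
          have : (Finset.univ : Finset V) ⊆ {r, x} := by
            intro z _
            simp only [Finset.mem_insert, Finset.mem_singleton]
            by_cases hz : z = r
            · exact Or.inl hz
            · exact Or.inr (h z hz)
          have h5 := Finset.card_le_card this
          have h6 : ({r, x} : Finset V).card ≤ 2 := Finset.card_le_two
          rw [Finset.card_univ] at h5
          omega
        have hxr : x ≠ r := hlr (by omega)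
        refine ⟨x, y, hy2.symm, hxr, hy1, ?_⟩
        intro z hzx hzy
        by_cases hzr : z = r
        · rw [hzr]
          exact iff_of_true (dist_eq_one_iff_adj.1 (hL x hxr))
            (dist_eq_one_iff_adj.1 (hL y hy1))
        · have hzl := hL z hzr
          exact iff_of_false (hA x z (by omega) (by omega))
            (hA y z (by rw [hL y hy1, hk']) (by omega))
      · right
        exact ⟨x, a, hlr (by omega), har, hxa, huniq⟩
    · left
      push Not at hcard
      have hP : P4free G (N x) := by
        intro p hp q hq s hs t ht h1 h2 h3 h4 h5 h6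
        exact nbhd_P4 hG ((hN x p).1 hp) ((hN x t).1 ht) h1 h2 h3 h4 h5 h6
      obtain ⟨u, hu, v, hv, huv, htw⟩ := cograph_twins (N x) (by omega) hP
      rw [hN] at hu hv
      have hul := hdown x u hx hu
      have hvl := hdown x v hx hv
      have hk2 : 2 ≤ k := by
        by_contra h
        have h0 : u = r := lev_zero hc r (by omega)
        have h1 : v = r := lev_zero hc r (by omega)
        exact huv (h0.trans h1.symm)
      refine ⟨u, v, huv, hlr (by omega), hlr (by omega), ?_⟩
      -- one direction is enough
      have main : ∀ u v, G.Adj x u → G.Adj x v → u ≠ v → G.dist u r + 1 = k →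
          G.dist v r + 1 = k →
          (∀ z ∈ N x, z ≠ u → z ≠ v → (G.Adj u z ↔ G.Adj v z)) →
          ∀ z, z ≠ u → z ≠ v → G.Adj u z → G.Adj v z := by
        intro u v hu hv huv hul hvl htw z hzu hzv huz
        by_cases hzN : G.Adj x z
        · exact (htw z ((hN x z).2 hzN) hzu hzv).1 huz
        by_cases hzx : z = x
        · rw [hzx]; exact hv.symm
        have h1 := lev_adj hc r huz
        have h2 := lev_adj hc r huz.symm
        have h3 : G.dist z r + 1 = G.dist u r ∨ G.dist z r = G.dist u r ∨
            G.dist z r = G.dist u r + 1 := by omega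
        rcases h3 with h3 | h3 | h3
        · exact F2 hc r hG hu hv (by omega) (by omega) huz h3
        · exact F3 hc r hG hu hv (by omega) (by omega) (by omega) hzN huz
        · -- `z` in the last level
          have hzk : G.dist z r = k := by omega
          by_contra hvz
          have hex : ∃ b' ∈ N z, b' ∉ N x := by
            by_contra hno
            push Not at hno
            have hsub : N z ⊆ (N x).erase v := by
              intro w hw
              rw [Finset.mem_erase]
              refine ⟨?_, hno w hw⟩
              rintro rfl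
              exact hvz ((hN z w).1 hw).symm
            have h5 := Finset.card_le_card hsub
            rw [Finset.card_erase_of_mem ((hN x v).2 hv)] at h5
            have h6 := hmin' z hzk
            omega
          obtain ⟨b', hb1, hb2⟩ := hex
          rw [hN] at hb1 hb2
          have hbl := hdown z b' hzk hb1
          exact F4 hc r hG (x := x) (x' := z) (a := u) (b := v) (b' := b') (by omega) hu
            huz.symm hv (fun h => hvz h.symm) hb1 hb2 (by omega) (by omega) (by omega)
      intro z hzu hzv
      refine ⟨main u v hu hv huv hul hvl htw z hzu hzv, main v u hv hu huv.symm hvl hul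
        (fun z hz h1 h2 => (htw z hz h2 h1).symm) z hzv hzu⟩

end X249.DH
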