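import Pool.Agent.X249.DH.Limit
import Pool.Agent.X249.DH.Elim

/-!
# A strongly universal countable distance-hereditary graph
-/

namespace X249.DH

open SimpleGraph

section Code

variable {L : Type*} [LinearOrder L] (s c : L → Prop)

theorem exists_FD' {A B : Finset L} (hne : A ≠ B) : ∃ q, FD (· < ·) A B q := by
  classical
  have hn : ((A ∪ B).filter (fun q => ¬ (q ∈ A ↔ q ∈ B))).Nonempty := by
    by_contra hno
    rw [Finset.not_nonempty_iff_eq_empty, Finset.filter_eq_empty_iff] at hno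
    apply hne
    ext x
    constructor
    · intro hx; exact (not_not.1 (hno (Finset.mem_union_left _ hx))).1 hx
    · intro hx; exact (not_not.1 (hno (Finset.mem_union_right _ hx))).2 hx
  obtain ⟨q, hq, hmin⟩ := Finset.exists_min_image _ id hn
  rw [Finset.mem_filter] at hq
  refine ⟨q, hq.2, fun p hp => ?_⟩
  by_contra hno
  have hpF : p ∈ A ∪ B := by
    by_contra hpF
    rw [Finset.mem_union, not_or] at hpF
    exact hno (iff_of_false hpF.1 hpF.2)
  have := hmin p (Finset.mem_filter.2 ⟨hpF, hno⟩)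
  exact absurd hp (not_lt.2 this)

/-- The graph on the finite sets of coloured levels: `A` and `B` are adjacent when the first
level in which they differ does not have colour `s` and no later level of `A` or `B` has
colour `c`. -/
def codeGraph : SimpleGraph (Finset L) where
  Adj A B := Rule (· < ·) s c A B
  symm := ⟨fun _ _ h => Rule.symm h⟩
  loopless := ⟨fun A h => by
    obtain ⟨q, hq, _⟩ := h
    exact hq.1 Iff.rfl⟩

theorem codeGraph_elim : Elim (codeGraph s c) := by
  classical
  intro 𝓕 h2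
  obtain ⟨A0, hA0, B0, hB0, hne0⟩ := Finset.one_lt_card.1 (show 1 < 𝓕.card by omega)
  let T : Finset L := (𝓕.biUnion id).filter (fun q => ∃ A ∈ 𝓕, ∃ B ∈ 𝓕, FD (· < ·) A B q)
  have hT : ∀ q, q ∈ T ↔ ∃ A ∈ 𝓕, ∃ B ∈ 𝓕, FD (· < ·) A B q := by
    intro q
    simp only [T, Finset.mem_filter, Finset.mem_biUnion, id, and_iff_right_iff_imp]
    rintro ⟨A, hA, B, hB, hq⟩
    by_cases hqA : q ∈ A
    · exact ⟨A, hA, hqA⟩
    · refine ⟨B, hB, ?_⟩
      by_contra hqB
      exact hq.1 (iff_of_false hqA hqB)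
  obtain ⟨q0, hq0⟩ := exists_FD' hne0
  have hTn : T.Nonempty := ⟨q0, (hT q0).2 ⟨A0, hA0, B0, hB0, hq0⟩⟩
  obtain ⟨q, hqT, hmax⟩ := Finset.exists_max_image T id hTn
  obtain ⟨A, hA, B, hB, hq⟩ := (hT q).1 hqT
  have hmax' : ∀ q', (∃ A ∈ 𝓕, ∃ B ∈ 𝓕, FD (· < ·) A B q') → q' ≤ q := fun q' h =>
    hmax q' ((hT q').2 h)
  -- assume that `q` belongs to `A`
  wlog hqA : q ∈ A generalizing A B with H
  · have hqB : q ∈ B := by
      by_contra hqB
      exact hq.1 (iff_of_false hqA hqB)
    exact H B hB A hA hq.symm hqB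
  have hqB : q ∉ B := fun h => hq.1 (iff_of_true hqA h)
  have hAB : A ≠ B := by rintro rfl; exact hqB hqA
  by_cases h3 : ∃ p ∈ A, q < p ∧ c p
  · obtain ⟨p, hpA, hqp, hcp⟩ := h3
    refine ⟨A, hA, Or.inl ⟨A, fun Z hZ h => ?_⟩⟩
    obtain ⟨q1, h4, _, h5⟩ := h
    exact absurd hcp (h5 p (Or.inl hpA)
      (lt_of_le_of_lt (hmax' q1 ⟨A, hA, Z, hZ, h4⟩) hqp))
  by_cases h4 : ∃ p ∈ B, q < p ∧ c p
  · obtain ⟨p, hpB, hqp, hcp⟩ := h4
    refine ⟨B, hB, Or.inl ⟨B, fun Z hZ h => ?_⟩⟩
    obtain ⟨q1, h4, _, h5⟩ := h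
    exact absurd hcp (h5 p (Or.inl hpB)
      (lt_of_le_of_lt (hmax' q1 ⟨B, hB, Z, hZ, h4⟩) hqp))
  push Not at h3 h4
  -- a set differing from `A` first in `q` is `B`
  have hA' : ∀ Z ∈ 𝓕, FD (· < ·) A Z q → Z = B := by
    intro Z hZ h5
    by_contra hZB
    obtain ⟨q2, h6⟩ := exists_FD' (A := B) (B := Z) (Ne.symm hZB)
    have h7 := hmax' q2 ⟨B, hB, Z, hZ, h6⟩
    rcases lt_or_eq_of_le h7 with h8 | h8
    · exact h6.1 ((hq.2 q2 h8).symm.trans (h5.2 q2 h8))
    · rw [h8] at h6
      refine h6.1 (iff_of_false hqB (fun e => h5.1 (iff_of_true hqA e)))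
  have hB' : ∀ Z ∈ 𝓕, FD (· < ·) B Z q → Z = A := by
    intro Z hZ h5
    by_contra hZA
    obtain ⟨q2, h6⟩ := exists_FD' (A := A) (B := Z) (Ne.symm hZA)
    have h7 := hmax' q2 ⟨A, hA, Z, hZ, h6⟩
    rcases lt_or_eq_of_le h7 with h8 | h8
    · exact h6.1 ((hq.2 q2 h8).trans (h5.2 q2 h8))
    · rw [h8] at h6
      have hqZ : q ∈ Z := by
        by_contra hqZ
        exact h5.1 (iff_of_false hqB hqZ)
      exact h6.1 (iff_of_true hqA hqZ)
  by_cases hcq : c q
  · refine ⟨A, hA, Or.inl ⟨B, fun Z hZ h => ?_⟩⟩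
    obtain ⟨q1, h5, _, h6⟩ := h
    have h7 := hmax' q1 ⟨A, hA, Z, hZ, h5⟩
    rcases lt_or_eq_of_le h7 with h8 | h8
    · exact absurd hcq (h6 q (Or.inl hqA) h8)
    · rw [h8] at h5
      exact hA' Z hZ h5
  · refine ⟨A, hA, Or.inr ⟨B, hB, hAB.symm, fun Z hZ hZA hZB => ?_⟩⟩
    constructor
    · rintro ⟨q1, h5, h6, h7⟩
      have h8 : q1 < q := by
        refine lt_of_le_of_ne (hmax' q1 ⟨A, hA, Z, hZ, h5⟩) (fun e => ?_)
        rw [e] at h5; exact hZB (hA' Z hZ h5)
      refine ⟨q1, ⟨?_, ?_⟩, h6, ?_⟩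
      · rw [← hq.2 q1 h8]; exact h5.1
      · intro p hp
        rw [← hq.2 p (hp.trans h8)]; exact h5.2 p hp
      · intro p hp hlt
        rcases hp with hp | hp
        · rcases lt_trichotomy p q with h9 | h9 | h9
          · exact h7 p (Or.inl ((hq.2 p h9).2 hp)) hlt
          · rw [h9] at hp; exact absurd hp hqB
          · exact h4 p hp h9
        · exact h7 p (Or.inr hp) hlt
    · rintro ⟨q1, h5, h6, h7⟩
      have h8 : q1 < q := by
        refine lt_of_le_of_ne (hmax' q1 ⟨B, hB, Z, hZ, h5⟩) (fun e => ?_)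
        rw [e] at h5; exact hZA (hB' Z hZ h5)
      refine ⟨q1, ⟨?_, ?_⟩, h6, ?_⟩
      · rw [hq.2 q1 h8]; exact h5.1
      · intro p hp
        rw [hq.2 p (hp.trans h8)]; exact h5.2 p hp
      · intro p hp hlt
        rcases hp with hp | hp
        · rcases lt_trichotomy p q with h9 | h9 | h9
          · exact h7 p (Or.inl ((hq.2 p h9).1 hp)) hlt
          · rw [h9]; exact hcq
          · exact h3 p hp h9
        · exact h7 p (Or.inr hp) hlt

theorem codeGraph_dh : DistHereditary (codeGraph s c) := dh_of_elim (codeGraph_elim s c)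

end Code

/-! ### The levels -/

/-- coloured rational levels -/
abbrev L0 := ℚ ×ₗ (Bool ×ₗ Bool)

/-- first colour -/
def s0 (q : L0) : Prop := (ofLex (ofLex q).2).1 = true

/-- second colour -/
def c0 (q : L0) : Prop := (ofLex (ofLex q).2).2 = true

/-- the level with given rational number and colours -/
noncomputable def mkL (a : ℚ) (p q : Prop) : L0 := by
  classical
  exact toLex (a, toLex (decide p, decide q))

theorem s0_mkL {a : ℚ} {p q : Prop} : s0 (mkL a p q) ↔ p := by
  classical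
  simp [s0, mkL]

theorem c0_mkL {a : ℚ} {p q : Prop} : c0 (mkL a p q) ↔ q := by
  classical
  simp [c0, mkL]

theorem mkL_inj {a a' : ℚ} {p q p' q' : Prop} (h : mkL a p q = mkL a' p' q') : a = a' := by
  classical
  have := congrArg (fun x : L0 => (ofLex x).1) h
  simpa [mkL] using this

theorem mkL_lt {a a' : ℚ} {p q p' q' : Prop} (hne : a ≠ a') :
    mkL a p q < mkL a' p' q' ↔ a < a' := by
  classical
  unfold mkL
  rw [Prod.Lex.lt_iff]
  simp [hne]

/-- codes in coloured rational levels for connected graphs -/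
theorem connected_code {V : Type*} [Countable V] {G : SimpleGraph V} (hG : DistHereditary G)
    (hc : G.Connected) : ∃ g : V → Finset L0, Function.Injective g ∧
      ∀ y z, y ≠ z → (G.Adj y z ↔ Rule (· < ·) s0 c0 (g y) (g z)) := by
  classical
  obtain ⟨r⟩ := hc.nonempty
  obtain ⟨idx, hidx, hpar⟩ := exists_idx hc r
  obtain ⟨f, h, S, C, hinj, hfr, hself, hsub, hadj⟩ := limit_config hG hidx r hpar
  let l : V → L0 := fun x => mkL (h x) (S x) (C x)
  have hl : Function.Injective l := fun x y hxy => hinj (mkL_inj hxy)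
  have hlt : ∀ x y, l x < l y ↔ h x < h y := by
    intro x y
    by_cases hxy : x = y
    · rw [hxy]; exact iff_of_false (lt_irrefl _) (lt_irrefl _)
    · exact mkL_lt (fun e => hxy (hinj e))
  let g : V → Finset L0 := fun y => (f y).image l
  have hg : ∀ y x, l x ∈ g y ↔ x ∈ f y := fun y x => hl.mem_finset_image
  have hg' : ∀ y p, p ∈ g y → ∃ x ∈ f y, l x = p := fun y p hp => Finset.mem_image.1 hp
  have hfinj : Function.Injective f := by
    intro y z hyz
    by_contra hne
    by_cases hy : y = r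
    · have hz : z ≠ r := fun e => hne (hy.trans e.symm)
      have := hself z hz
      rw [← hyz, hy, hfr] at this
      simp at this
    · by_cases hz : z = r
      · have := hself y hy
        rw [hyz, hz, hfr] at this
        simp at this
      · have h1 : y ∈ f z := hyz ▸ hself y hy
        have h2 : z ∈ f y := hyz ▸ hself z hz
        exact hne (hidx (le_antisymm (hsub z y h1) (hsub y z h2)))
  refine ⟨g, ?_, ?_⟩
  · intro y z hyz
    apply hfinj
    ext x
    rw [← hg, ← hg, hyz]
  · intro y z hyz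
    rw [hadj y z hyz]
    constructor
    · rintro ⟨q, ⟨h1, h2⟩, h3, h4⟩
      refine ⟨l q, ⟨?_, ?_⟩, ?_, ?_⟩
      · rw [hg, hg]; exact h1
      · intro p hp
        constructor
        · intro hpy
          obtain ⟨x, hx, rfl⟩ := hg' y p hpy
          rw [hg]
          exact (h2 x ((hlt x q).1 hp)).1 hx
        · intro hpz
          obtain ⟨x, hx, rfl⟩ := hg' z p hpz
          rw [hg]
          exact (h2 x ((hlt x q).1 hp)).2 hx
      · rw [s0_mkL]; exact h3
      · intro p hp hqp
        rcases hp with hp | hp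
        · obtain ⟨x, hx, rfl⟩ := hg' y p hp
          rw [c0_mkL]; exact h4 x (Or.inl hx) ((hlt q x).1 hqp)
        · obtain ⟨x, hx, rfl⟩ := hg' z p hp
          rw [c0_mkL]; exact h4 x (Or.inr hx) ((hlt q x).1 hqp)
    · rintro ⟨q, ⟨h1, h2⟩, h3, h4⟩
      obtain ⟨x, rfl⟩ : ∃ x, l x = q := by
        by_cases hq : q ∈ g y
        · obtain ⟨x, _, hx⟩ := hg' y q hq; exact ⟨x, hx⟩
        · have hq' : q ∈ g z := by
            by_contra hq'
            exact h1 (iff_of_false hq hq')
          obtain ⟨x, _, hx⟩ := hg' z q hq'; exact ⟨x, hx⟩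
      refine ⟨x, ⟨?_, ?_⟩, ?_, ?_⟩
      · rw [← hg, ← hg]; exact h1
      · intro p hp
        rw [← hg, ← hg]
        exact h2 (l p) ((hlt p x).2 hp)
      · rw [← s0_mkL (a := h x) (p := S x) (q := C x)]; exact h3
      · intro p hp hqp
        rw [← c0_mkL (a := h p) (p := S p) (q := C p)]
        refine h4 (l p) ?_ ((hlt x p).2 hqp)
        rw [hg, hg]; exact hp

/-- the levels of the universal graph: component markers below coloured rationals -/
abbrev L1 := ℕ ⊕ₗ L0

/-- first colour -/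
def s1 (q : L1) : Prop := match ofLex q with
  | Sum.inl _ => True
  | Sum.inr a => s0 a

/-- second colour -/
def c1 (q : L1) : Prop := match ofLex q with
  | Sum.inl _ => False
  | Sum.inr a => c0 a

/-- marker -/
def il (i : ℕ) : L1 := toLex (Sum.inl i)

/-- level -/
def ir (a : L0) : L1 := toLex (Sum.inr a)

theorem s1_il (i : ℕ) : s1 (il i) := trivial

theorem s1_ir (a : L0) : s1 (ir a) ↔ s0 a := Iff.rfl

theorem c1_il (i : ℕ) : ¬ c1 (il i) := fun h => h

theorem c1_ir (a : L0) : c1 (ir a) ↔ c0 a := Iff.rfl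

theorem il_inj {i j : ℕ} (h : il i = il j) : i = j := Sum.inl_injective (toLex_inj.1 h)

theorem ir_inj : Function.Injective ir := fun _ _ h => Sum.inr_injective (toLex_inj.1 h)

theorem il_ne_ir (i : ℕ) (a : L0) : il i ≠ ir a := fun h => by
  have := toLex_inj.1 h
  simp at this

theorem il_lt_ir (i : ℕ) (a : L0) : il i < ir a := Sum.Lex.inl_lt_inr i a

theorem ir_lt_ir {a b : L0} : ir a < ir b ↔ a < b := Sum.Lex.inr_lt_inr_iff

theorem L1_cases (q : L1) : (∃ i, q = il i) ∨ (∃ a, q = ir a) := by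
  rcases h : ofLex q with i | a
  · exact Or.inl ⟨i, by rw [il, ← h]; rfl⟩
  · exact Or.inr ⟨a, by rw [ir, ← h]; rfl⟩

/-- adding a component marker -/
noncomputable def lift (i : ℕ) (A : Finset L0) : Finset L1 := by
  classical
  exact insert (il i) (A.image ir)

theorem mem_lift_il {i j : ℕ} {A : Finset L0} : il j ∈ lift i A ↔ j = i := by
  classical
  simp only [lift, Finset.mem_insert, Finset.mem_image]
  constructor
  · rintro (h | ⟨a, _, h⟩)
    · exact il_inj h
    · exact absurd h.symm (il_ne_ir j a)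
  · rintro rfl; exact Or.inl rfl

theorem mem_lift_ir {i : ℕ} {a : L0} {A : Finset L0} : ir a ∈ lift i A ↔ a ∈ A := by
  classical
  simp only [lift, Finset.mem_insert]
  rw [ir_inj.mem_finset_image]
  constructor
  · rintro (h | h)
    · exact absurd h.symm (il_ne_ir i a)
    · exact h
  · exact Or.inr

theorem lift_inj {i j : ℕ} {A B : Finset L0} (h : lift i A = lift j B) : i = j ∧ A = B := by
  constructor
  · have : il i ∈ lift j B := by rw [← h]; exact mem_lift_il.2 rfl
    exact mem_lift_il.1 this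
  · ext a
    rw [← mem_lift_ir (i := i), ← mem_lift_ir (i := j) (A := B), h]

theorem lift_rule_same {i : ℕ} {A B : Finset L0} :
    Rule (· < ·) s1 c1 (lift i A) (lift i B) ↔ Rule (· < ·) s0 c0 A B := by
  constructor
  · rintro ⟨q, ⟨h1, h2⟩, h3, h4⟩
    rcases L1_cases q with ⟨j, rfl⟩ | ⟨a, rfl⟩
    · exact absurd (s1_il j) h3
    · refine ⟨a, ⟨?_, ?_⟩, h3, ?_⟩
      · rw [mem_lift_ir, mem_lift_ir] at h1; exact h1
      · intro p hp
        have := h2 (ir p) (ir_lt_ir.2 hp)
        rwa [mem_lift_ir, mem_lift_ir] at this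
      · intro p hp hap
        refine h4 (ir p) ?_ (ir_lt_ir.2 hap)
        rwa [mem_lift_ir, mem_lift_ir]
  · rintro ⟨a, ⟨h1, h2⟩, h3, h4⟩
    refine ⟨ir a, ⟨?_, ?_⟩, h3, ?_⟩
    · rw [mem_lift_ir, mem_lift_ir]; exact h1
    · intro p hp
      rcases L1_cases p with ⟨j, rfl⟩ | ⟨b, rfl⟩
      · rw [mem_lift_il, mem_lift_il]
      · rw [mem_lift_ir, mem_lift_ir]
        exact h2 b (ir_lt_ir.1 hp)
    · intro p hp hap
      rcases L1_cases p with ⟨j, rfl⟩ | ⟨b, rfl⟩
      · exact c1_il j
      · rw [mem_lift_ir, mem_lift_ir] at hp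
        exact h4 b hp (ir_lt_ir.1 hap)

theorem lift_rule_diff {i j : ℕ} (hij : i ≠ j) {A B : Finset L0} :
    ¬ Rule (· < ·) s1 c1 (lift i A) (lift j B) := by
  rintro ⟨q, ⟨h1, h2⟩, h3, _⟩
  rcases L1_cases q with ⟨k, rfl⟩ | ⟨a, rfl⟩
  · exact h3 (s1_il k)
  · have := h2 (il i) (il_lt_ir i a)
    rw [mem_lift_il, mem_lift_il] at this
    exact hij (this.1 rfl)

/-- **A strongly universal countable distance-hereditary graph.** -/
theorem strongly_universal : ∃ (W : Type) (_ : Countable W) (U : SimpleGraph W),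
    DistHereditary U ∧ ∀ (V : Type) [Countable V] (G : SimpleGraph V),
      DistHereditary G → Nonempty (G ↪g U) := by
  classical
  have hc0 : Countable L0 := inferInstanceAs (Countable (ℚ × (Bool × Bool)))
  have hc1 : Countable L1 := inferInstanceAs (Countable (ℕ ⊕ L0))
  refine ⟨Finset L1, inferInstance, codeGraph s1 c1, codeGraph_dh s1 c1, ?_⟩
  intro V _ G hG
  have : Countable G.ConnectedComponent := by
    have : Function.Surjective G.connectedComponentMk := fun c => by
      induction c using ConnectedComponent.ind with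
      | h v => exact ⟨v, rfl⟩
    exact this.countable
  obtain ⟨κ, hκ⟩ := Countable.exists_injective_nat G.ConnectedComponent
  have hcode : ∀ C : G.ConnectedComponent, ∃ g : C.supp → Finset L0, Function.Injective g ∧
      ∀ y z, y ≠ z → ((G.induce C.supp).Adj y z ↔ Rule (· < ·) s0 c0 (g y) (g z)) := by
    intro C
    have h1 : DistHereditary (G.induce C.supp) := hG.comap (Embedding.induce _)
    have h2 : (G.induce C.supp).Connected := C.connected_toSimpleGraph
    exact connected_code h1 h2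
  choose g hginj hgadj using hcode
  let F : V → Finset L1 := fun y =>
    lift (κ (G.connectedComponentMk y)) (g (G.connectedComponentMk y) ⟨y, rfl⟩)
  have hF : ∀ (C : G.ConnectedComponent) (y : V) (hy : y ∈ C.supp),
      F y = lift (κ C) (g C ⟨y, hy⟩) := by
    intro C y hy
    have : G.connectedComponentMk y = C := hy
    subst this
    rfl
  have hFinj : Function.Injective F := by
    intro y z hyz
    have h1 : G.connectedComponentMk y = G.connectedComponentMk z := hκ (lift_inj hyz).1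
    have hz : z ∈ (G.connectedComponentMk y).supp := h1.symm
    rw [hF _ z hz] at hyz
    have h2 := hginj _ (lift_inj hyz).2
    exact congrArg Subtype.val h2
  refine ⟨⟨⟨F, hFinj⟩, ?_⟩⟩
  intro y z
  show Rule (· < ·) s1 c1 (F y) (F z) ↔ G.Adj y z
  by_cases hyz : y = z
  · subst hyz
    exact iff_of_false (fun h => by obtain ⟨q, hq, _⟩ := h; exact hq.1 Iff.rfl)
      (G.loopless.irrefl _)
  by_cases hcomp : G.connectedComponentMk y = G.connectedComponentMk z
  · have hz : z ∈ (G.connectedComponentMk y).supp := hcomp.symm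
    rw [hF (G.connectedComponentMk y) y rfl, hF _ z hz, lift_rule_same,
      ← hgadj _ _ _ (fun e => hyz (congrArg Subtype.val e))]
    rfl
  · refine iff_of_false ?_ (fun h => hcomp (ConnectedComponent.sound h.reachable))
    exact lift_rule_diff (fun e => hcomp (hκ e))

end X249.DH
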